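import Pool.Agent.Lib.MP_b75bf2_nt.Uniform

/-!
# Essential components and bounded signed sums of few numbers: definitions and interfaces

Plan of the proof of `SpecFinal` (an essential component is not contained in the bounded signed
sums of `T ^ (1 + c)` real numbers, not even on its first `T` dyadic scales).
-/

set_option autoImplicit false
open Classical
open scoped Pointwise

namespace Pool.Agent.Lib.MP_b75bf2_nt.CAP

section
variable {ι : Type} [Fintype ι]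

/-- The sum of the absolute values of the coefficients. -/
def l1 (v : ι → ℤ) : ℕ := ∑ i, (v i).natAbs

/-- The real number with coefficients `v`. -/
noncomputable def sg (e : ι → ℝ) (v : ι → ℤ) : ℝ := ∑ i, (v i : ℝ) * e i

/-- `z` has dyadic level `k`. -/
def lev (k : ℕ) (z : ℝ) : Prop := 2 ^ k ≤ |z| ∧ |z| < 2 ^ (k + 1)

/-- `Y` meets the support of every vector of norm at most `r` and level `k`. -/
def Hit (e : ι → ℝ) (r k : ℕ) (Y : Finset ι) : Prop :=
  ∀ v : ι → ℤ, l1 v ≤ r → lev k (sg e v) → ∃ y ∈ Y, v y ≠ 0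

lemma l1_zero : l1 (0 : ι → ℤ) = 0 := by simp [l1]

lemma l1_neg (v : ι → ℤ) : l1 (-v) = l1 v := by simp [l1]

lemma l1_add_le (v w : ι → ℤ) : l1 (v + w) ≤ l1 v + l1 w := by
  unfold l1
  rw [← Finset.sum_add_distrib]
  exact Finset.sum_le_sum fun i _ => Int.natAbs_add_le _ _

lemma l1_sub_le (v w : ι → ℤ) : l1 (v - w) ≤ l1 v + l1 w := by
  rw [sub_eq_add_neg, ← l1_neg w]
  exact l1_add_le _ _

lemma l1_sum_le {κ : Type} (S : Finset κ) (v : κ → ι → ℤ) :
    l1 (∑ a ∈ S, v a) ≤ ∑ a ∈ S, l1 (v a) := by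
  induction S using Finset.induction_on with
  | empty => simp [l1_zero]
  | insert a S ha ih =>
    rw [Finset.sum_insert ha, Finset.sum_insert ha]
    exact (l1_add_le _ _).trans (Nat.add_le_add_left ih _)

lemma l1_single [DecidableEq ι] (i : ι) (c : ℤ) : l1 (Pi.single i c) = c.natAbs := by
  unfold l1
  rw [Finset.sum_eq_single i]
  · simp
  · intro j _ hj
    simp [Pi.single_eq_of_ne hj]
  · simp

lemma natAbs_le_l1 (v : ι → ℤ) (i : ι) : (v i).natAbs ≤ l1 v :=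
  Finset.single_le_sum (f := fun i => (v i).natAbs) (fun _ _ => Nat.zero_le _) (Finset.mem_univ i)

lemma card_supp_le_l1 (v : ι → ℤ) : (Finset.univ.filter (fun i => v i ≠ 0)).card ≤ l1 v := by
  unfold l1
  rw [Finset.card_filter]
  refine Finset.sum_le_sum fun i _ => ?_
  split_ifs with h
  · exact Nat.one_le_iff_ne_zero.2 (Int.natAbs_ne_zero.2 h)
  · exact Nat.zero_le _

lemma eq_zero_of_l1 {v : ι → ℤ} (h : l1 v = 0) : v = 0 := by
  funext i
  have := natAbs_le_l1 v i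
  simp only [Pi.zero_apply]
  omega

lemma sg_zero (e : ι → ℝ) : sg e 0 = 0 := by simp [sg]

lemma sg_add (e : ι → ℝ) (v w : ι → ℤ) : sg e (v + w) = sg e v + sg e w := by
  simp [sg, add_mul, Finset.sum_add_distrib]

lemma sg_neg (e : ι → ℝ) (v : ι → ℤ) : sg e (-v) = -sg e v := by simp [sg]

lemma sg_sub (e : ι → ℝ) (v w : ι → ℤ) : sg e (v - w) = sg e v - sg e w := by
  rw [sub_eq_add_neg, sg_add, sg_neg, sub_eq_add_neg]

lemma sg_sum (e : ι → ℝ) {κ : Type} (S : Finset κ) (v : κ → ι → ℤ) :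
    sg e (∑ a ∈ S, v a) = ∑ a ∈ S, sg e (v a) := by
  induction S using Finset.induction_on with
  | empty => simp [sg_zero]
  | insert a S ha ih => rw [Finset.sum_insert ha, Finset.sum_insert ha, sg_add, ih]

lemma sg_single [DecidableEq ι] (e : ι → ℝ) (i : ι) (c : ℤ) : sg e (Pi.single i c) = c * e i := by
  unfold sg
  rw [Finset.sum_eq_single i]
  · simp
  · intro j _ hj
    simp [Pi.single_eq_of_ne hj]
  · simp

lemma not_lev_zero (k : ℕ) : ¬ lev k 0 := by
  intro h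
  have := h.1
  rw [abs_zero] at this
  have h2 : (0 : ℝ) < 2 ^ k := by positivity
  linarith

lemma ne_zero_of_lev {e : ι → ℝ} {k : ℕ} {v : ι → ℤ} (h : lev k (sg e v)) : v ≠ 0 := by
  rintro rfl
  rw [sg_zero] at h
  exact not_lev_zero k h

/-- Every real number of absolute value at least one has a level. -/
lemma exists_lev {z : ℝ} {k l : ℕ} (h1 : 2 ^ k ≤ |z|) (h2 : |z| < 2 ^ l) :
    ∃ i, k ≤ i ∧ i < l ∧ lev i z := by
  have hex : ∃ i, |z| < 2 ^ i := ⟨l, h2⟩
  have h3 := Nat.find_spec hex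
  have h4 : Nat.find hex ≤ l := Nat.find_min' hex h2
  have h5 : k < Nat.find hex := by
    by_contra hc
    have h6 : (2 : ℝ) ^ Nat.find hex ≤ 2 ^ k :=
      pow_le_pow_right₀ (by norm_num) (not_lt.1 hc)
    linarith
  have h7 : ¬ |z| < 2 ^ (Nat.find hex - 1) := Nat.find_min hex (by omega)
  refine ⟨Nat.find hex - 1, by omega, by omega, not_lt.1 h7, ?_⟩
  rw [Nat.sub_add_cancel (by omega)]
  exact h3

end

/-- Number of vectors: all vectors with support in `Y` and norm at most `s` lie in a set of at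
most `(2 |Y| + 1) ^ s` vectors. -/
def SpecBall : Prop :=
  ∀ (ι : Type) [Fintype ι] (s : ℕ) (Y : Finset ι), ∃ W : Finset (ι → ℤ),
    W.card ≤ (2 * Y.card + 1) ^ s ∧
      ∀ u : ι → ℤ, l1 u ≤ s → (∀ i, u i ≠ 0 → i ∈ Y) → u ∈ W

/-- (M1) Rank bound by subset sums: the vectors of norm at most `r` with support in `X` attain at
most `2 L |X|` levels below `T`.
Proof: keep the even or the odd levels; for `p` levels `k` with gaps at least two and vectors
`v_k` the `2 ^ p` subset sums of the `sg e v_k` are different, so the subset sums of the `v_k` are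
different; their coefficients are at most `r T` in absolute value, so `2 ^ p ≤ (2 r T + 1) ^ |X|`. -/
def SpecCount : Prop :=
  ∀ (ι : Type) [Fintype ι] (e : ι → ℝ) (r T L : ℕ) (X : Finset ι) (Λ : Finset ℕ),
    2 * r * T + 1 ≤ 2 ^ L → (∀ k ∈ Λ, k < T) →
    (∀ k ∈ Λ, ∃ v : ι → ℤ, l1 v ≤ r ∧ lev k (sg e v) ∧ ∀ i, v i ≠ 0 → i ∈ X) →
    Λ.card ≤ 2 * L * X.card

/-- (M2) Few levels have no small hitting set.
Proof: such a level has `p > K / r` vectors with disjoint supports (take a maximal disjoint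
family), so for at least half of the maps `f : ι → Fin M` one of these supports lies in the
fibre of `0` (second moment, as `p ≥ 2 M ^ r`); use (M1) for the fibre and sum over `f`. -/
def SpecRare : Prop :=
  ∀ (ι : Type) [Fintype ι] (e : ι → ℝ) (r T L M K : ℕ),
    0 < M → 2 * r * T + 1 ≤ 2 ^ L → 2 * r * M ^ r ≤ K →
    M * ((Finset.range T).filter
      (fun k => ¬ ∃ Y : Finset ι, Y.card ≤ K ∧ Hit e r k Y)).card ≤ 4 * L * Fintype.card ι

/-- (M3) A good level `j`: all the windows of length `2 ^ a` below it have small hitting sets.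
Proof: by (M2) with `M * 4 ^ a`, at most `T / (16 * 4 ^ a)` levels have no hitting set of size at
most `K_a = 2 r (M 4 ^ a) ^ r`; such a level is in the window of at most `2 ^ a + 1` values of
`j`; `Y a` is the union of the minimal hitting sets of the levels `j - 2 ^ a, ..., j`. -/
def SpecWindow : Prop :=
  ∀ (ι : Type) [Fintype ι] (e : ι → ℝ) (r T L M : ℕ),
    0 < M → 2 * r * T + 1 ≤ 2 ^ L → 64 * L * Fintype.card ι ≤ M * T → 32 ≤ T →
    ∃ (j : ℕ) (Y : ℕ → Finset ι), T ≤ 2 * j ∧ j + 2 ≤ T ∧ Monotone Y ∧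
      (∀ a, (Y a).card ≤ (2 ^ a + 3) * (2 * r * (M * 4 ^ a) ^ r)) ∧
      ∀ (a : ℕ) (v : ι → ℤ), 2 ^ a ≤ j → l1 v ≤ r → (∀ y ∈ Y a, v y = 0) →
        |sg e v| < 2 ^ (j + 1) → |sg e v| * 2 ^ (2 ^ a) < 2 ^ j

/-- (M4) A frequency which kills all the elements of `P` without coefficients in `Y' \ Y`.
Proof: two such elements whose coefficients on `Y` agree differ by less than `2 * 2 ^ (j - w')`;
so there are at most `n` representatives (`SpecBall`); Dirichlet (pigeonhole among the multiples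
`k θ₀`, `0 ≤ k ≤ 2 ^ (q n)`, of `θ₀ = 2 ^ (q + w - j)`) gives `θ = k θ₀`, `1 ≤ k ≤ 2 ^ (q n)`, with
`‖θ β‖ ≤ 2 ^ (-q)` for the representatives `β`. -/
def SpecStep : Prop :=
  ∀ (ι : Type) [Fintype ι] (e : ι → ℝ) (s j w w' n q : ℕ) (Y Y' : Finset ι)
    (P : Set ℝ) (v : ℝ → ι → ℤ),
    Y ⊆ Y' → w' + 1 ≤ j → (2 * Y.card + 1) ^ s ≤ n → w + q * (n + 3) + 1 ≤ w' →
    (∀ u : ι → ℤ, l1 u ≤ 2 * s → (∀ y ∈ Y', u y = 0) → |sg e u| < 2 ^ (j + 1) →
      |sg e u| * 2 ^ w' < 2 ^ j) →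
    (∀ b ∈ P, 0 ≤ b ∧ b ≤ 2 ^ j ∧ l1 (v b) ≤ s ∧ |b - sg e (v b)| ≤ 1) →
    ∃ θ : ℝ, 2 ^ (q + w) ≤ θ * 2 ^ j ∧ θ * 2 ^ j * 2 ^ (2 * q) ≤ 2 ^ w' ∧
      ∀ b ∈ P, (∀ y ∈ Y', y ∉ Y → v b y = 0) → |θ * b - round (θ * b)| * 2 ^ q ≤ 2

/-- (M5) Lacunary frequencies all but `s` of which nearly kill every element of `B`: then `B` is
not essential.
Proof: `F x` is the number of `k < m` with `Int.fract (θ k * x) < 1 / 2`, `X = {x | t ≤ F x}` with
the largest `t` such that the binomial tail is at least `1 / 2` (plus a little); then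
`X + B ⊆ {x | t - s ≤ F x} ∪ Err`, where `Err` is the set of the `x` with some `θ k * x` near
`0` or `1 / 2` modulo one. On every interval the densities are the binomial tails up to small
errors (nested intervals, lacunarity). Start at the point where `cnt X n - n / 2` is minimal, and
use the lemma `glue`. -/
def SpecPhase : Prop :=
  ∀ (B : Set ℕ) (s : ℕ),
    (∀ m q : ℕ, ∃ (N : ℕ) (θ : ℕ → ℝ), 0 < N ∧ (∀ k < m, 0 < θ k) ∧
      (∀ k, k + 1 < m → 2 ^ q * θ k ≤ θ (k + 1)) ∧ (∀ k < m, 2 ^ q ≤ θ k * N) ∧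
      (∀ k < m, 2 ^ q * θ k ≤ 1) ∧ 2 ^ q * (cnt B N + 1) ≤ N ∧
      ∀ b ∈ B, b ≤ N → ((Finset.range m).filter
        (fun k => 1 < 2 ^ q * |θ k * b - round (θ k * b)|)).card ≤ s) →
    ∃ X : Set ℕ, 0 ∈ X ∧ 1 / 2 ≤ schnirelmannDensity X ∧ schnirelmannDensity (X + B) ≤ 1 / 2

/-- The theorem. -/
def SpecFinal : Prop :=
  ∀ B : Set ℕ, 0 ∈ B → Essential B → ∀ s : ℕ, ∃ c : ℝ, 0 < c ∧ ∃ T₀ : ℕ,
    ∀ T : ℕ, T₀ ≤ T → ∀ x : ℕ, 2 ^ T ≤ x → ∀ E : Finset ℝ,
      (∀ b ∈ B, b ≤ x → ∃ l : List ℝ, l.length ≤ s ∧ (∀ e ∈ l, e ∈ E ∨ -e ∈ E) ∧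
        |(b : ℝ) - l.sum| * 2 ^ T ≤ x) →
      (T : ℝ) ^ (1 + c) ≤ E.card

end Pool.Agent.Lib.MP_b75bf2_nt.CAP
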