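import Pool.Agent.Lib.MP_b75bf2_nt.CAP.Defs

/-!
# Lacunary frequencies: `SpecPhase`

Counting in real intervals, equidistribution of the sets `{x | t ≤ F x}` for lacunary
frequencies, the points near the discontinuities, the majority set and its sum with `B`.
-/

set_option autoImplicit false
open Classical
open scoped Pointwise

namespace Pool.Agent.Lib.MP_b75bf2_nt.CAP

namespace Phase

/-- Number of the elements of `S` in the real interval `[a, b)`. -/
noncomputable def ct (S : Set ℕ) (a b : ℝ) : ℕ :=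
  ∑ n ∈ Finset.Ico ⌈a⌉₊ ⌈b⌉₊, if n ∈ S then 1 else 0

lemma mem_ico {a b : ℝ} {n : ℕ} : n ∈ Finset.Ico ⌈a⌉₊ ⌈b⌉₊ ↔ a ≤ n ∧ (n : ℝ) < b := by
  rw [Finset.mem_Ico, Nat.ceil_le, Nat.lt_ceil]

lemma ct_add (S : Set ℕ) {a b c : ℝ} (h1 : a ≤ b) (h2 : b ≤ c) :
    ct S a b + ct S b c = ct S a c := by
  unfold ct
  exact Finset.sum_Ico_consecutive _ (Nat.ceil_mono h1) (Nat.ceil_mono h2)

lemma ct_mono_right (S : Set ℕ) {a b c : ℝ} (h1 : a ≤ b) (h2 : b ≤ c) :
    ct S a b ≤ ct S a c := by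
  rw [← ct_add S h1 h2]; exact Nat.le_add_right _ _

lemma ct_congr {S S' : Set ℕ} {a b : ℝ} (h : ∀ n : ℕ, a ≤ n → (n : ℝ) < b → (n ∈ S ↔ n ∈ S')) :
    ct S a b = ct S' a b := by
  unfold ct
  refine Finset.sum_congr rfl fun n hn => ?_
  rw [mem_ico] at hn
  simp only [h n hn.1 hn.2]

lemma ct_zero {S : Set ℕ} {a b : ℝ} (h : ∀ n : ℕ, a ≤ n → (n : ℝ) < b → n ∉ S) :
    ct S a b = 0 := by
  unfold ct
  refine Finset.sum_eq_zero fun n hn => ?_
  rw [mem_ico] at hn
  rw [if_neg (h n hn.1 hn.2)]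

/-- `S` has density `d` on all intervals, up to the error `ρ * length + E`. -/
def Equi (S : Set ℕ) (d ρ E : ℝ) : Prop :=
  ∀ a b : ℝ, 0 ≤ a → a ≤ b → |(ct S a b : ℝ) - d * (b - a)| ≤ ρ * (b - a) + E

lemma ct_univ {a b : ℝ} (h0 : 0 ≤ a) (h : a ≤ b) : |(ct Set.univ a b : ℝ) - (b - a)| ≤ 1 := by
  have h1 : ct Set.univ a b = ⌈b⌉₊ - ⌈a⌉₊ := by
    unfold ct
    simp
  have h2 : ⌈a⌉₊ ≤ ⌈b⌉₊ := Nat.ceil_mono h
  rw [h1, Nat.cast_sub h2]
  have h3 := Nat.le_ceil a
  have h4 := Nat.le_ceil b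
  have h5 := Nat.ceil_lt_add_one h0
  have h6 := Nat.ceil_lt_add_one (h0.trans h)
  rw [abs_le]
  constructor <;> linarith

lemma equi_univ {ρ E : ℝ} (hρ : 0 ≤ ρ) (hE : 1 ≤ E) : Equi Set.univ 1 ρ E := by
  intro a b h0 h
  have h1 := ct_univ h0 h
  have h2 : 0 ≤ ρ * (b - a) := mul_nonneg hρ (by linarith)
  rw [one_mul]
  linarith

lemma equi_empty {ρ E : ℝ} (hρ : 0 ≤ ρ) (hE : 1 ≤ E) : Equi ∅ 0 ρ E := by
  intro a b h0 h
  have h1 : ct ∅ a b = 0 := ct_zero fun n _ _ => by simp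
  have h2 : 0 ≤ ρ * (b - a) := mul_nonneg hρ (by linarith)
  rw [h1]
  simp only [Nat.cast_zero, zero_mul, sub_zero, abs_zero]
  linarith

/-- The part of `S` in the first halves of the periods of `θ`. -/
def lo (S : Set ℕ) (θ : ℝ) : Set ℕ := {x | x ∈ S ∧ Int.fract (θ * x) < 1 / 2}

lemma fract_of_mem {x : ℝ} {j : ℕ} {r : ℝ} (hr : r ≤ 1) (h1 : (j : ℝ) ≤ x) (h2 : x < j + r) :
    Int.fract x = x - j := by
  have : ⌊x⌋ = (j : ℤ) := by
    rw [Int.floor_eq_iff]
    push_cast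
    constructor <;> linarith
  rw [Int.fract, this]
  simp

lemma lo_period (S : Set ℕ) {θ : ℝ} (hθ : 0 < θ) (j : ℕ) :
    ct (lo S θ) (j * (1 / θ)) ((j + 1) * (1 / θ)) =
      ct S (j * (1 / θ)) (j * (1 / θ) + 1 / θ / 2) := by
  have hp : 0 < 1 / θ := by positivity
  have h1 : (j : ℝ) * (1 / θ) ≤ j * (1 / θ) + 1 / θ / 2 := by linarith
  have h2 : (j : ℝ) * (1 / θ) + 1 / θ / 2 ≤ (j + 1) * (1 / θ) := by linarith
  rw [← ct_add _ h1 h2]
  have h3 : ct (lo S θ) (j * (1 / θ) + 1 / θ / 2) ((j + 1) * (1 / θ)) = 0 := by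
    refine ct_zero fun n hn1 hn2 hn => ?_
    have e1 : (j : ℝ) + 1 / 2 ≤ θ * n := by
      have := mul_le_mul_of_nonneg_left hn1 hθ.le
      have e : θ * ((j : ℝ) * (1 / θ) + 1 / θ / 2) = j + 1 / 2 := by field_simp
      linarith
    have e2 : θ * n < (j : ℝ) + 1 := by
      have := mul_lt_mul_of_pos_left hn2 hθ
      have e : θ * (((j : ℝ) + 1) * (1 / θ)) = j + 1 := by field_simp
      linarith
    have e3 := fract_of_mem (x := θ * n) (j := j) (r := 1) le_rfl (by linarith) e2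
    have := hn.2
    rw [e3] at this
    linarith
  rw [h3, add_zero]
  refine ct_congr fun n hn1 hn2 => ?_
  have e1 : (j : ℝ) ≤ θ * n := by
    have := mul_le_mul_of_nonneg_left hn1 hθ.le
    have e : θ * ((j : ℝ) * (1 / θ)) = j := by field_simp
    linarith
  have e2 : θ * n < (j : ℝ) + 1 / 2 := by
    have := mul_lt_mul_of_pos_left hn2 hθ
    have e : θ * ((j : ℝ) * (1 / θ) + 1 / θ / 2) = j + 1 / 2 := by field_simp
    linarith
  have e3 := fract_of_mem (x := θ * n) (j := j) (r := 1) le_rfl e1 (by linarith)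
  constructor
  · exact fun h => h.1
  · intro h
    refine ⟨h, ?_⟩
    rw [e3]
    linarith

lemma lo_periods {S : Set ℕ} {θ d ρ E : ℝ} (hθ : 0 < θ) (h : Equi S d ρ E) (i n : ℕ) :
    |(ct (lo S θ) (i * (1 / θ)) ((i + n : ℕ) * (1 / θ)) : ℝ) - d / 2 * (n * (1 / θ))| ≤
      n * (ρ * (1 / θ / 2) + E) := by
  have hp : 0 < 1 / θ := by positivity
  induction n with
  | zero =>
    have : ct (lo S θ) (i * (1 / θ)) ((i + 0 : ℕ) * (1 / θ)) = 0 := by
      unfold ct; simp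
    rw [this]
    simp
  | succ n ih =>
    have h1 : (i : ℝ) * (1 / θ) ≤ (i + n : ℕ) * (1 / θ) := by
      push_cast
      nlinarith [Nat.cast_nonneg (α := ℝ) n]
    have h2 : ((i + n : ℕ) : ℝ) * (1 / θ) ≤ (i + (n + 1) : ℕ) * (1 / θ) := by
      push_cast
      nlinarith [Nat.cast_nonneg (α := ℝ) n]
    rw [← ct_add _ h1 h2]
    have h3 := lo_period S hθ (i + n)
    have e1 : (((i + n : ℕ) : ℝ) + 1) * (1 / θ) = (i + (n + 1) : ℕ) * (1 / θ) := by
      push_cast; ring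
    rw [e1] at h3
    rw [h3]
    have h4 := h ((i + n : ℕ) * (1 / θ)) ((i + n : ℕ) * (1 / θ) + 1 / θ / 2) (by positivity)
      (by linarith)
    push_cast at ih h4 ⊢
    rw [abs_le] at ih h4 ⊢
    constructor <;> nlinarith [ih.1, ih.2, h4.1, h4.2]

lemma lo_equi {S : Set ℕ} {θ d ρ E : ℝ} (hθ : 0 < θ) (hd : 0 ≤ d) (hρ : 0 ≤ ρ) (hE : 0 ≤ E)
    (h : Equi S d ρ E) :
    Equi (lo S θ) (d / 2) (ρ / 2 + θ * E) ((d + ρ) * (1 / θ) + 2 * E) := by
  have hp : 0 < 1 / θ := by positivity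
  intro a b h0 hab
  set p : ℝ := 1 / θ with hpdef
  have hθp : θ * p = 1 := by rw [hpdef]; field_simp
  have hb0 : 0 ≤ b := h0.trans hab
  set i : ℕ := ⌊θ * a⌋₊ with hi
  set j : ℕ := ⌊θ * b⌋₊ with hj
  have hij : i ≤ j := Nat.floor_mono (mul_le_mul_of_nonneg_left hab hθ.le)
  have hia : (i : ℝ) * p ≤ a := by
    have h1 : (i : ℝ) ≤ θ * a := Nat.floor_le (by positivity)
    have h2 := mul_le_mul_of_nonneg_right h1 hp.le
    have e : θ * a * p = a := by rw [mul_right_comm, hθp, one_mul]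
    linarith
  have hia' : a ≤ ((i : ℝ) + 1) * p := by
    have h1 : θ * a < (i : ℝ) + 1 := Nat.lt_floor_add_one _
    have h2 := mul_le_mul_of_nonneg_right h1.le hp.le
    have e : θ * a * p = a := by rw [mul_right_comm, hθp, one_mul]
    linarith
  have hjb : (j : ℝ) * p ≤ b := by
    have h1 : (j : ℝ) ≤ θ * b := Nat.floor_le (by positivity)
    have h2 := mul_le_mul_of_nonneg_right h1 hp.le
    have e : θ * b * p = b := by rw [mul_right_comm, hθp, one_mul]
    linarith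
  have hjb' : b ≤ ((j : ℝ) + 1) * p := by
    have h1 : θ * b < (j : ℝ) + 1 := Nat.lt_floor_add_one _
    have h2 := mul_le_mul_of_nonneg_right h1.le hp.le
    have e : θ * b * p = b := by rw [mul_right_comm, hθp, one_mul]
    linarith
  have hijp : (i : ℝ) * p ≤ j * p := mul_le_mul_of_nonneg_right (by exact_mod_cast hij) hp.le
  -- the two ends
  have hR : ∀ k : ℕ, (ct (lo S θ) (k * p) ((k + 1) * p) : ℝ) ≤ (d + ρ) * (p / 2) + E := by
    intro k
    have e1 : ct (lo S θ) (k * p) ((k + 1) * p) = ct S (k * p) (k * p + p / 2) := lo_period S hθ k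
    rw [e1]
    have h4 := h (k * p) (k * p + p / 2) (by positivity) (by linarith)
    rw [abs_le] at h4
    have := h4.2
    nlinarith
  have hea : (ct (lo S θ) (i * p) a : ℝ) ≤ (d + ρ) * (p / 2) + E := by
    refine le_trans ?_ (hR i)
    exact_mod_cast ct_mono_right _ hia hia'
  have heb : (ct (lo S θ) (j * p) b : ℝ) ≤ (d + ρ) * (p / 2) + E := by
    refine le_trans ?_ (hR j)
    exact_mod_cast ct_mono_right _ hjb hjb'
  have hea0 : (0 : ℝ) ≤ ct (lo S θ) (i * p) a := Nat.cast_nonneg _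
  have heb0 : (0 : ℝ) ≤ ct (lo S θ) (j * p) b := Nat.cast_nonneg _
  -- the middle
  obtain ⟨n, hn⟩ := Nat.exists_eq_add_of_le hij
  have hmid := lo_periods hθ h i n
  rw [← hpdef, ← hn] at hmid
  have hs1 : ct (lo S θ) (i * p) a + ct (lo S θ) a b = ct (lo S θ) (i * p) b := ct_add _ hia hab
  have hs2 : ct (lo S θ) (i * p) (j * p) + ct (lo S θ) (j * p) b = ct (lo S θ) (i * p) b :=
    ct_add _ hijp hjb
  have hs : (ct (lo S θ) a b : ℝ) =
      ct (lo S θ) (i * p) (j * p) + ct (lo S θ) (j * p) b - ct (lo S θ) (i * p) a := by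
    have h1 : (ct (lo S θ) (i * p) a : ℝ) + ct (lo S θ) a b = ct (lo S θ) (i * p) b := by
      exact_mod_cast hs1
    have h2 : (ct (lo S θ) (i * p) (j * p) : ℝ) + ct (lo S θ) (j * p) b =
        ct (lo S θ) (i * p) b := by exact_mod_cast hs2
    linarith
  have hnp : (n : ℝ) * p = j * p - i * p := by
    rw [hn]; push_cast; ring
  have hnp2 : (n : ℝ) * p ≤ (b - a) + p := by
    rw [hnp]; nlinarith
  have hnp3 : (b - a) - p ≤ (n : ℝ) * p := by
    rw [hnp]; nlinarith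
  have hmid2 : (n : ℝ) * (ρ * (p / 2) + E) ≤ ((b - a) + p) * (ρ / 2 + θ * E) := by
    have e1 : (n : ℝ) * (ρ * (p / 2) + E) = (n * p) * (ρ / 2 + θ * E) := by
      have : (n : ℝ) * E = n * (θ * p) * E := by rw [hθp, mul_one]
      calc (n : ℝ) * (ρ * (p / 2) + E) = n * p * (ρ / 2) + n * E := by ring
        _ = n * p * (ρ / 2) + n * (θ * p) * E := by rw [← this]
        _ = _ := by ring
    rw [e1]
    exact mul_le_mul_of_nonneg_right hnp2 (by positivity)
  have e2 : ((b - a) + p) * (ρ / 2 + θ * E) = (ρ / 2 + θ * E) * (b - a) + (ρ * p / 2 + E) := by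
    have : p * (θ * E) = E := by
      calc p * (θ * E) = (θ * p) * E := by ring
        _ = E := by rw [hθp, one_mul]
    calc ((b - a) + p) * (ρ / 2 + θ * E) =
        (ρ / 2 + θ * E) * (b - a) + (ρ * p / 2 + p * (θ * E)) := by ring
      _ = _ := by rw [this]
  rw [hs]
  rw [abs_le] at hmid ⊢
  have hdn1 : d / 2 * (n * p) ≤ d / 2 * ((b - a) + p) :=
    mul_le_mul_of_nonneg_left hnp2 (by positivity)
  have hdn2 : d / 2 * ((b - a) - p) ≤ d / 2 * (n * p) :=
    mul_le_mul_of_nonneg_left hnp3 (by positivity)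
  constructor <;> nlinarith [hmid.1, hmid.2]

/-- Number of the frequencies `ψ k`, `k < j`, which are in the first half at `x`. -/
noncomputable def Fc (ψ : ℕ → ℝ) (j : ℕ) (x : ℕ) : ℕ :=
  ((Finset.range j).filter (fun k => Int.fract (ψ k * x) < 1 / 2)).card

lemma Fc_succ_lo {ψ : ℕ → ℝ} {j x : ℕ} (h : Int.fract (ψ j * x) < 1 / 2) :
    Fc ψ (j + 1) x = Fc ψ j x + 1 := by
  unfold Fc
  rw [Finset.range_add_one, Finset.filter_insert, if_pos h, Finset.card_insert_of_notMem]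
  simp

lemma Fc_succ_hi {ψ : ℕ → ℝ} {j x : ℕ} (h : ¬ Int.fract (ψ j * x) < 1 / 2) :
    Fc ψ (j + 1) x = Fc ψ j x := by
  unfold Fc
  rw [Finset.range_add_one, Finset.filter_insert, if_neg h]

/-- The tails of the binomial distribution. -/
noncomputable def T : ℕ → ℕ → ℝ
  | _, 0 => 1
  | 0, _ + 1 => 0
  | j + 1, t + 1 => (T j t + T j (t + 1)) / 2

lemma T_zero_right (j : ℕ) : T j 0 = 1 := by cases j <;> rfl

lemma T_zero_left (t : ℕ) : T 0 (t + 1) = 0 := rfl

lemma T_succ (j t : ℕ) : T (j + 1) (t + 1) = (T j t + T j (t + 1)) / 2 := rfl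

lemma T_nonneg (j t : ℕ) : 0 ≤ T j t := by
  induction j generalizing t with
  | zero => cases t with
    | zero => rw [T_zero_right]; norm_num
    | succ t => rw [T_zero_left]
  | succ j ih => cases t with
    | zero => rw [T_zero_right]; norm_num
    | succ t => rw [T_succ]; have := ih t; have := ih (t + 1); linarith

lemma T_le_one (j t : ℕ) : T j t ≤ 1 := by
  induction j generalizing t with
  | zero => cases t with
    | zero => rw [T_zero_right]
    | succ t => rw [T_zero_left]; norm_num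
  | succ j ih => cases t with
    | zero => rw [T_zero_right]
    | succ t => rw [T_succ]; have := ih t; have := ih (t + 1); linarith

lemma T_top (j t : ℕ) (h : j < t) : T j t = 0 := by
  induction j generalizing t with
  | zero =>
    obtain ⟨t, rfl⟩ := Nat.exists_eq_succ_of_ne_zero (by omega : t ≠ 0)
    rfl
  | succ j ih =>
    obtain ⟨t, rfl⟩ := Nat.exists_eq_succ_of_ne_zero (by omega : t ≠ 0)
    rw [Nat.succ_eq_add_one, T_succ, ih t (by omega), ih (t + 1) (by omega)]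
    norm_num

lemma T_step (j t : ℕ) : (T j t - T j (t + 1)) * 2 ^ j = (j.choose t : ℝ) := by
  induction j generalizing t with
  | zero => cases t with
    | zero => rw [T_zero_right, T_zero_left]; simp
    | succ t => rw [T_zero_left, T_zero_left]; simp
  | succ j ih => cases t with
    | zero =>
      have h1 := ih 0
      rw [T_zero_right] at h1 ⊢
      rw [T_succ, T_zero_right]
      rw [Nat.choose_zero_right, zero_add, Nat.cast_one] at h1 ⊢
      rw [pow_succ]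
      linarith
    | succ t =>
      have h1 := ih t
      have h2 := ih (t + 1)
      rw [T_succ, T_succ, Nat.choose_succ_succ]
      push_cast
      rw [pow_succ]
      linarith

/-- A bound for the central binomial coefficients. -/
lemma central (n : ℕ) : (2 * n + 1) * n.centralBinom ^ 2 ≤ 16 ^ n := by
  induction n with
  | zero => simp
  | succ n ih =>
    have h1 := Nat.succ_mul_centralBinom_succ n
    have h2 : (n + 1) ^ 2 * ((2 * (n + 1) + 1) * (n + 1).centralBinom ^ 2) ≤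
        (n + 1) ^ 2 * 16 ^ (n + 1) := by
      calc (n + 1) ^ 2 * ((2 * (n + 1) + 1) * (n + 1).centralBinom ^ 2)
          = (2 * (n + 1) + 1) * ((n + 1) * (n + 1).centralBinom) ^ 2 := by ring
        _ = (2 * (n + 1) + 1) * (2 * (2 * n + 1) * n.centralBinom) ^ 2 := by rw [h1]
        _ = (4 * (2 * (n + 1) + 1) * (2 * n + 1)) * ((2 * n + 1) * n.centralBinom ^ 2) := by ring
        _ ≤ (4 * (2 * (n + 1) + 1) * (2 * n + 1)) * 16 ^ n := Nat.mul_le_mul_left _ ih
        _ ≤ (16 * (n + 1) ^ 2) * 16 ^ n := by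
            refine Nat.mul_le_mul_right _ ?_
            nlinarith
        _ = _ := by ring
    exact Nat.le_of_mul_le_mul_left h2 (by positivity)

lemma T_diff (n t : ℕ) : T (2 * n) t - T (2 * n) (t + 1) ≤ 1 / Real.sqrt (2 * n + 1) := by
  have h1 := T_step (2 * n) t
  have h2 : ((2 * n).choose t : ℝ) ≤ n.centralBinom := by
    exact_mod_cast Nat.choose_le_centralBinom t n
  have h3 : ((2 * n + 1 : ℕ) : ℝ) * (n.centralBinom : ℝ) ^ 2 ≤ 16 ^ n := by
    exact_mod_cast central n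
  push_cast at h3
  have h5 : (0 : ℝ) < 2 * n + 1 := by positivity
  have h6 : 0 < Real.sqrt (2 * n + 1) := Real.sqrt_pos.2 h5
  rw [le_div_iff₀ h6]
  have h7 : (16 : ℝ) ^ n = (2 ^ (2 * n)) ^ 2 := by
    rw [← pow_mul, show (16 : ℝ) = 2 ^ 4 by norm_num, ← pow_mul]
    congr 1
    ring
  have h8 : (Real.sqrt (2 * n + 1) * n.centralBinom) ^ 2 ≤ (2 ^ (2 * n)) ^ 2 := by
    rw [mul_pow, Real.sq_sqrt h5.le, ← h7]
    exact h3
  have h9 : Real.sqrt (2 * n + 1) * n.centralBinom ≤ 2 ^ (2 * n) :=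
    (pow_le_pow_iff_left₀ (by positivity) (by positivity) two_ne_zero).1 h8
  have h10 : (0 : ℝ) < 2 ^ (2 * n) := by positivity
  have h11 : (T (2 * n) t - T (2 * n) (t + 1)) * Real.sqrt (2 * n + 1) * 2 ^ (2 * n) ≤
      1 * 2 ^ (2 * n) := by
    calc (T (2 * n) t - T (2 * n) (t + 1)) * Real.sqrt (2 * n + 1) * 2 ^ (2 * n)
        = Real.sqrt (2 * n + 1) * ((T (2 * n) t - T (2 * n) (t + 1)) * 2 ^ (2 * n)) := by ring
      _ = Real.sqrt (2 * n + 1) * ((2 * n).choose t : ℝ) := by rw [h1]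
      _ ≤ Real.sqrt (2 * n + 1) * n.centralBinom := mul_le_mul_of_nonneg_left h2 h6.le
      _ ≤ 2 ^ (2 * n) := h9
      _ = _ := by ring
  exact le_of_mul_le_mul_right h11 h10

/-- Lacunary frequencies: the sets `{x | t ≤ F x}` are equidistributed. -/
lemma equi_main {ψ : ℕ → ℝ} {m : ℕ} {δ : ℝ} (h0 : ψ 0 ≤ δ) (hpos : ∀ k ≤ m, 0 < ψ k)
    (hlac : ∀ k < m, ψ (k + 1) ≤ δ * ψ k) (hδ : 2 * 5 ^ m * δ ≤ 1) :
    ∀ j ≤ m, ∃ E : ℝ, 1 ≤ E ∧ E * ψ j ≤ 2 * 5 ^ j * δ ∧
      ∀ t, Equi {x | t ≤ Fc ψ j x} (T j t) (2 * 5 ^ j * δ) E := by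
  have hδ0 : 0 < δ := (hpos 0 (Nat.zero_le _)).trans_le h0
  intro j
  induction j with
  | zero =>
    intro _
    refine ⟨1, le_rfl, by rw [one_mul, pow_zero]; linarith, ?_⟩
    intro t
    cases t with
    | zero =>
      have : {x : ℕ | 0 ≤ Fc ψ 0 x} = Set.univ := by
        ext x; simp
      rw [this, T_zero_right]
      exact equi_univ (by positivity) le_rfl
    | succ t =>
      have : {x : ℕ | t + 1 ≤ Fc ψ 0 x} = ∅ := by
        ext x; simp [Fc]
      rw [this, T_zero_left]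
      exact equi_empty (by positivity) le_rfl
  | succ j ih =>
    intro hj
    obtain ⟨E, hE1, hE2, hE3⟩ := ih (by omega)
    have hψj : 0 < ψ j := hpos j (by omega)
    have hψj1 : 0 < ψ (j + 1) := hpos (j + 1) hj
    have h5j : (0 : ℝ) < 5 ^ j := by positivity
    set ρ : ℝ := 2 * 5 ^ j * δ with hρ
    have hρ0 : 0 < ρ := by positivity
    have hρ1 : ρ ≤ 1 := by
      refine le_trans ?_ hδ
      have : (5 : ℝ) ^ j ≤ 5 ^ m := pow_le_pow_right₀ (by norm_num) (by omega)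
      rw [hρ]
      gcongr
    have hρ5 : 2 * 5 ^ (j + 1) * δ = 5 * ρ := by rw [hρ, pow_succ]; ring
    have hp : 0 < 1 / ψ j := by positivity
    have hEψ : ψ j * E ≤ ρ := by linarith [mul_comm E (ψ j)]
    refine ⟨5 * E + 2 * (1 + ρ) * (1 / ψ j), by nlinarith, ?_, ?_⟩
    · rw [hρ5]
      have h1 := hlac j (by omega)
      have h2 : (5 * E + 2 * (1 + ρ) * (1 / ψ j)) * ψ (j + 1) ≤
          (5 * E + 2 * (1 + ρ) * (1 / ψ j)) * (δ * ψ j) :=
        mul_le_mul_of_nonneg_left h1 (by nlinarith)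
      have h3 : (5 * E + 2 * (1 + ρ) * (1 / ψ j)) * (δ * ψ j) =
          5 * δ * (ψ j * E) + 2 * (1 + ρ) * δ * (1 / ψ j * ψ j) := by ring
      have h4 : 1 / ψ j * ψ j = 1 := by field_simp
      rw [h3, h4] at h2
      have hδρ : 2 * δ ≤ ρ := by
        have : (1 : ℝ) ≤ 5 ^ j := one_le_pow₀ (by norm_num)
        rw [hρ]
        nlinarith
      have h6 : 5 * δ * (ψ j * E) ≤ 5 * δ * 1 := by
        refine mul_le_mul_of_nonneg_left (hEψ.trans hρ1) (by positivity)
      nlinarith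
    · intro t
      cases t with
      | zero =>
        have : {x : ℕ | 0 ≤ Fc ψ (j + 1) x} = Set.univ := by
          ext x; simp
        rw [this, T_zero_right]
        refine equi_univ (by positivity) ?_
        nlinarith
      | succ t =>
        intro a b ha hab
        have hT1 := hE3 t
        have hT2 := hE3 (t + 1)
        have hL1 := lo_equi hψj (T_nonneg j t) hρ0.le (by linarith) hT1 a b ha hab
        have hL2 := lo_equi hψj (T_nonneg j (t + 1)) hρ0.le (by linarith) hT2 a b ha hab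
        have hS2 := hT2 a b ha hab
        have key : ct {x | t + 1 ≤ Fc ψ (j + 1) x} a b + ct (lo {x | t + 1 ≤ Fc ψ j x} (ψ j)) a b =
            ct (lo {x | t ≤ Fc ψ j x} (ψ j)) a b + ct {x | t + 1 ≤ Fc ψ j x} a b := by
          unfold ct
          rw [← Finset.sum_add_distrib, ← Finset.sum_add_distrib]
          refine Finset.sum_congr rfl fun x _ => ?_
          have e2 : (x ∈ lo {x | t + 1 ≤ Fc ψ j x} (ψ j)) ↔
              (t + 1 ≤ Fc ψ j x ∧ Int.fract (ψ j * x) < 1 / 2) := Iff.rfl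
          have e3 : (x ∈ lo {x | t ≤ Fc ψ j x} (ψ j)) ↔
              (t ≤ Fc ψ j x ∧ Int.fract (ψ j * x) < 1 / 2) := Iff.rfl
          have e4 : (x ∈ {x | t + 1 ≤ Fc ψ j x}) ↔ t + 1 ≤ Fc ψ j x := Iff.rfl
          by_cases h : Int.fract (ψ j * x) < 1 / 2
          · have e1 : (x ∈ {x | t + 1 ≤ Fc ψ (j + 1) x}) ↔ t ≤ Fc ψ j x := by
              change t + 1 ≤ Fc ψ (j + 1) x ↔ _
              rw [Fc_succ_lo h]
              omega
            simp only [e1, e2, e3, e4, h, and_true]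
          · have e1 : (x ∈ {x | t + 1 ≤ Fc ψ (j + 1) x}) ↔ t + 1 ≤ Fc ψ j x := by
              change t + 1 ≤ Fc ψ (j + 1) x ↔ _
              rw [Fc_succ_hi h]
            simp only [e1, e2, e3, e4, h, and_false, if_false]
            omega
        have key' : (ct {x | t + 1 ≤ Fc ψ (j + 1) x} a b : ℝ) =
            ct (lo {x | t ≤ Fc ψ j x} (ψ j)) a b + ct {x | t + 1 ≤ Fc ψ j x} a b -
              ct (lo {x | t + 1 ≤ Fc ψ j x} (ψ j)) a b := by
          have : (ct {x | t + 1 ≤ Fc ψ (j + 1) x} a b : ℝ) +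
              ct (lo {x | t + 1 ≤ Fc ψ j x} (ψ j)) a b =
            ct (lo {x | t ≤ Fc ψ j x} (ψ j)) a b + ct {x | t + 1 ≤ Fc ψ j x} a b := by
            exact_mod_cast key
          linarith
        rw [key', T_succ, hρ5]
        have hba : 0 ≤ b - a := by linarith
        have hx1 := T_le_one j t
        have hx2 := T_le_one j (t + 1)
        have hx3 : (T j t + ρ) * (1 / ψ j) ≤ (1 + ρ) * (1 / ψ j) := by gcongr
        have hx4 : (T j (t + 1) + ρ) * (1 / ψ j) ≤ (1 + ρ) * (1 / ψ j) := by gcongr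
        have hx5 : (ρ / 2 + ψ j * E) * (b - a) ≤ (ρ / 2 + ρ) * (b - a) := by gcongr
        rw [abs_le] at hL1 hL2 hS2 ⊢
        constructor <;> nlinarith [hL1.1, hL1.2, hL2.1, hL2.2, hS2.1, hS2.2]

/-- Closeness on the circle. -/
lemma fract_close {θ δ : ℝ} {y b : ℕ} (hδ : δ < 1 / 4)
    (hb : |θ * b - round (θ * b)| ≤ δ) (hy : Int.fract (θ * y) < 1 / 2) :
    Int.fract (θ * (y + b : ℕ)) < 1 / 2 ∨
      (1 / 2 ≤ Int.fract (θ * (y + b : ℕ)) ∧ Int.fract (θ * (y + b : ℕ)) ≤ 1 / 2 + δ) ∨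
      (1 - δ ≤ Int.fract (θ * (y + b : ℕ)) ∧ Int.fract (θ * (y + b : ℕ)) ≤ 1) := by
  set r : ℝ := θ * b - round (θ * b) with hr
  have h0 := Int.fract_nonneg (θ * (y : ℝ))
  have e : θ * (y + b : ℕ) = (Int.fract (θ * y) + r) + ((⌊θ * (y : ℝ)⌋ + round (θ * b) : ℤ) : ℝ) := by
    rw [hr]
    push_cast
    have := Int.floor_add_fract (θ * (y : ℝ))
    linarith
  have e2 : Int.fract (θ * (y + b : ℕ)) = Int.fract (Int.fract (θ * y) + r) := by
    rw [e, Int.fract_add_intCast]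
  rw [e2]
  rw [abs_le] at hb
  by_cases hv : 0 ≤ Int.fract (θ * y) + r
  · have e3 : Int.fract (Int.fract (θ * y) + r) = Int.fract (θ * y) + r := by
      rw [Int.fract_eq_self]
      constructor <;> linarith [hb.2]
    rw [e3]
    by_cases h : Int.fract (θ * y) + r < 1 / 2
    · exact Or.inl h
    · exact Or.inr (Or.inl ⟨not_lt.1 h, by linarith [hb.2]⟩)
  · have e3 : Int.fract (Int.fract (θ * y) + r) = Int.fract (θ * y) + r + 1 := by
      rw [← Int.fract_add_one, Int.fract_eq_self]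
      push Not at hv
      constructor <;> linarith [hb.1, hb.2]
    rw [e3]
    exact Or.inr (Or.inr ⟨by linarith [hb.1], by linarith⟩)

/-- Number of the `z ≤ N` with `θ z` in an arc. -/
lemma arc_card {θ α β : ℝ} (hθ : 0 < θ) (h0 : 0 ≤ α) (hαβ : α ≤ β) (N : ℕ) :
    (((Finset.range (N + 1)).filter
      (fun z => α ≤ Int.fract (θ * (z : ℕ)) ∧ Int.fract (θ * (z : ℕ)) ≤ β)).card : ℝ) ≤
      (θ * N + 1) * ((β - α) / θ + 1) := by
  have hsub : (Finset.range (N + 1)).filter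
      (fun z => α ≤ Int.fract (θ * (z : ℕ)) ∧ Int.fract (θ * (z : ℕ)) ≤ β) ⊆
      (Finset.range (⌊θ * N⌋₊ + 1)).biUnion
        (fun j => Finset.Icc ⌈((j : ℝ) + α) / θ⌉₊ ⌊((j : ℝ) + β) / θ⌋₊) := by
    intro z hz
    rw [Finset.mem_filter, Finset.mem_range] at hz
    obtain ⟨hzN, h1, h2⟩ := hz
    have hz0 : 0 ≤ θ * (z : ℝ) := by positivity
    have hzN' : (z : ℝ) ≤ N := by exact_mod_cast Nat.lt_succ_iff.1 hzN
    rw [Finset.mem_biUnion]
    refine ⟨⌊θ * (z : ℝ)⌋₊, ?_, ?_⟩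
    · rw [Finset.mem_range]
      exact Nat.lt_succ_of_le (Nat.floor_mono (mul_le_mul_of_nonneg_left hzN' hθ.le))
    · have e : Int.fract (θ * (z : ℝ)) = θ * z - ⌊θ * (z : ℝ)⌋₊ := by
        rw [Int.fract]
        congr 1
        rw [← natCast_floor_eq_intCast_floor hz0]
      rw [e] at h1 h2
      rw [Finset.mem_Icc, Nat.ceil_le, Nat.le_floor_iff (by
        have : (0 : ℝ) ≤ ⌊θ * (z : ℝ)⌋₊ := Nat.cast_nonneg _
        have : 0 ≤ β := h0.trans hαβ
        positivity), div_le_iff₀ hθ, le_div_iff₀ hθ]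
      constructor <;> linarith
  have hcard : ∀ j : ℕ, ((Finset.Icc ⌈((j : ℝ) + α) / θ⌉₊ ⌊((j : ℝ) + β) / θ⌋₊).card : ℝ) ≤
      (β - α) / θ + 1 := by
    intro j
    rw [Nat.card_Icc]
    have h1 := Nat.le_ceil (((j : ℝ) + α) / θ)
    have h2 : (⌊((j : ℝ) + β) / θ⌋₊ : ℝ) ≤ ((j : ℝ) + β) / θ := Nat.floor_le (by
      have : 0 ≤ β := h0.trans hαβ
      positivity)
    have e : ((j : ℝ) + β) / θ - ((j : ℝ) + α) / θ = (β - α) / θ := by ring
    have h3 : 0 ≤ (β - α) / θ := div_nonneg (by linarith) hθ.le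
    by_cases h : ⌈((j : ℝ) + α) / θ⌉₊ ≤ ⌊((j : ℝ) + β) / θ⌋₊ + 1
    · rw [Nat.cast_sub h]
      push_cast
      linarith
    · rw [Nat.sub_eq_zero_of_le (by omega)]
      push_cast
      linarith
  have h1 : (((Finset.range (⌊θ * N⌋₊ + 1)).biUnion
        (fun j => Finset.Icc ⌈((j : ℝ) + α) / θ⌉₊ ⌊((j : ℝ) + β) / θ⌋₊)).card : ℝ) ≤
      ∑ j ∈ Finset.range (⌊θ * N⌋₊ + 1), ((β - α) / θ + 1) := by
    refine (Nat.cast_le.2 Finset.card_biUnion_le).trans ?_
    push_cast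
    exact Finset.sum_le_sum fun j _ => hcard j
  rw [Finset.sum_const, Finset.card_range, nsmul_eq_mul] at h1
  push_cast at h1
  have h2 : (⌊θ * (N : ℝ)⌋₊ : ℝ) ≤ θ * N := Nat.floor_le (by positivity)
  have h3 : 0 ≤ (β - α) / θ := div_nonneg (by linarith) hθ.le
  calc _ ≤ _ := by exact_mod_cast Finset.card_le_card hsub
    _ ≤ _ := h1
    _ ≤ _ := by nlinarith

lemma cnt_shift (S : Set ℕ) (u n : ℕ) : cnt S (u + n) = cnt S u + cnt {z | z + u ∈ S} n := by
  induction n with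
  | zero => simp [cnt_zero]
  | succ n ih =>
    rw [← add_assoc, cnt_succ, cnt_succ, ih]
    have e : (n + 1 ∈ {z | z + u ∈ S}) ↔ (u + n + 1 ∈ S) := by
      change n + 1 + u ∈ S ↔ _
      rw [show n + 1 + u = u + n + 1 by omega]
    simp only [e]
    omega

lemma cnt_ct (S : Set ℕ) {u v : ℕ} (h : u ≤ v) :
    cnt S u + ct S ((u + 1 : ℕ) : ℝ) ((v + 1 : ℕ) : ℝ) = cnt S v := by
  have h1 : ∀ w : ℕ, cnt S w = ∑ n ∈ Finset.Ico 1 (w + 1), if n ∈ S then 1 else 0 := by
    intro w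
    unfold cnt
    rw [Finset.card_filter]
    rfl
  rw [h1, h1]
  unfold ct
  rw [Nat.ceil_natCast, Nat.ceil_natCast]
  exact Finset.sum_Ico_consecutive _ (by omega) (by omega)

lemma T_steps {m : ℕ} {κ : ℝ} (hκ0 : 0 ≤ κ) (hκ : ∀ t, T m t - T m (t + 1) ≤ κ) (t s : ℕ) :
    T m (t - s) ≤ T m t + s * κ := by
  induction s with
  | zero => simp
  | succ s ih =>
    rcases Nat.eq_zero_or_pos (t - s) with h | h
    · have e : t - (s + 1) = t - s := by omega
      rw [e]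
      push_cast
      linarith
    · have e : t - s = (t - (s + 1)) + 1 := by omega
      have h1 := hκ (t - (s + 1))
      rw [← e] at h1
      push_cast
      linarith

lemma exists_t {m : ℕ} {κ e : ℝ} (he : e ≤ 1 / 2) (he0 : 0 ≤ e)
    (hκ : ∀ t, T m t - T m (t + 1) ≤ κ) :
    ∃ t, 1 / 2 + e ≤ T m t ∧ T m t ≤ 1 / 2 + e + κ := by
  have hex : ∃ t, T m t < 1 / 2 + e := ⟨m + 1, by rw [T_top m (m + 1) (by omega)]; linarith⟩
  have h1 := Nat.find_spec hex
  have h2 : Nat.find hex ≠ 0 := by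
    intro h
    rw [h, T_zero_right] at h1
    linarith
  obtain ⟨t, ht⟩ := Nat.exists_eq_succ_of_ne_zero h2
  have h3 : ¬ T m t < 1 / 2 + e := Nat.find_min hex (by omega)
  refine ⟨t, not_lt.1 h3, ?_⟩
  rw [ht, Nat.succ_eq_add_one] at h1
  have := hκ t
  linarith

/-- The exceptional points of one frequency. -/
noncomputable def zone (θ δ : ℝ) (N : ℕ) : Finset ℕ :=
  (Finset.range (N + 1)).filter
      (fun z => 1 / 2 ≤ Int.fract (θ * (z : ℕ)) ∧ Int.fract (θ * (z : ℕ)) ≤ 1 / 2 + δ) ∪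
    (Finset.range (N + 1)).filter
      (fun z => 1 - δ ≤ Int.fract (θ * (z : ℕ)) ∧ Int.fract (θ * (z : ℕ)) ≤ 1)

lemma zone_card {θ δ : ℝ} {N : ℕ} (hθ : 0 < θ) (hδ0 : 0 < δ) (hδ1 : δ ≤ 1) (h1 : θ ≤ δ)
    (h2 : 1 ≤ θ * (δ * N)) (h3 : 1 ≤ δ * N) : ((zone θ δ N).card : ℝ) ≤ 8 * (δ * N) := by
  have hN : (0 : ℝ) ≤ N := Nat.cast_nonneg N
  have key : (θ * N + 1) * (δ / θ + 1) ≤ 4 * (δ * N) := by
    have e1 : (θ * N + 1) * (δ / θ + 1) = (θ / θ) * (δ * N) + θ * N + δ * (1 / θ) + 1 := by ring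
    have e2 : θ / θ = 1 := div_self hθ.ne'
    have e3 : 1 / θ ≤ δ * N := by
      rw [div_le_iff₀ hθ]; linarith [mul_comm θ (δ * (N : ℝ))]
    have e4 : δ * (1 / θ) ≤ 1 * (δ * N) := mul_le_mul hδ1 e3 (by positivity) (by norm_num)
    have e5 : θ * N ≤ δ * N := mul_le_mul_of_nonneg_right h1 hN
    rw [e1, e2]
    linarith
  have a1 := arc_card hθ (α := 1 / 2) (β := 1 / 2 + δ) (by norm_num) (by linarith) N
  have a2 := arc_card hθ (α := 1 - δ) (β := 1) (by linarith) (by linarith) N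
  have e1 : (1 / 2 + δ - 1 / 2) / θ = δ / θ := by ring
  have e2 : (1 - (1 - δ)) / θ = δ / θ := by ring
  rw [e1] at a1
  rw [e2] at a2
  unfold zone
  refine (Nat.cast_le.2 (Finset.card_union_le _ _)).trans ?_
  push_cast
  linarith

lemma Fc_reflect {θ ψ : ℕ → ℝ} {m : ℕ} (h : ∀ k < m, ψ k = θ (m - 1 - k)) (x : ℕ) :
    Fc ψ m x = ((Finset.range m).filter (fun k => Int.fract (θ k * x) < 1 / 2)).card := by
  unfold Fc
  rw [Finset.card_filter, Finset.card_filter,
    ← Finset.sum_range_reflect (fun k => if Int.fract (θ k * x) < 1 / 2 then 1 else 0) m]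
  refine Finset.sum_congr rfl fun k hk => ?_
  rw [h k (Finset.mem_range.1 hk)]

/-- Adding an element which nearly kills all but `s` of the frequencies. -/
lemma step_card {θ : ℕ → ℝ} {m q s N y b : ℕ} {δ : ℝ} (hδq : 2 ^ q * δ = 1) (hδ : δ < 1 / 4)
    (hb : ((Finset.range m).filter
        (fun k => 1 < 2 ^ q * |θ k * b - round (θ k * b)|)).card ≤ s)
    (hyb : y + b ≤ N) (hz : ∀ k < m, y + b ∉ zone (θ k) δ N) :
    ((Finset.range m).filter (fun k => Int.fract (θ k * y) < 1 / 2)).card ≤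
      ((Finset.range m).filter (fun k => Int.fract (θ k * (y + b : ℕ)) < 1 / 2)).card + s := by
  have hsub : (Finset.range m).filter (fun k => Int.fract (θ k * y) < 1 / 2) ⊆
      (Finset.range m).filter (fun k => Int.fract (θ k * (y + b : ℕ)) < 1 / 2) ∪
      (Finset.range m).filter (fun k => 1 < 2 ^ q * |θ k * b - round (θ k * b)|) := by
    intro k hk
    rw [Finset.mem_filter, Finset.mem_range] at hk
    rw [Finset.mem_union, Finset.mem_filter, Finset.mem_filter, Finset.mem_range]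
    by_cases h : 1 < 2 ^ q * |θ k * b - round (θ k * b)|
    · exact Or.inr ⟨hk.1, h⟩
    · left
      refine ⟨hk.1, ?_⟩
      have h1 : |θ k * b - round (θ k * b)| ≤ δ := by
        have h2 : (0 : ℝ) < 2 ^ q := by positivity
        have h3 : 2 ^ q * |θ k * b - round (θ k * b)| ≤ 2 ^ q * δ := by
          rw [hδq]; exact not_lt.1 h
        exact le_of_mul_le_mul_left h3 h2
      have h4 := hz k hk.1
      unfold zone at h4
      rw [Finset.mem_union, Finset.mem_filter, Finset.mem_filter, Finset.mem_range] at h4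
      rcases fract_close hδ h1 hk.2 with h5 | h5 | h5
      · exact h5
      · exact absurd (Or.inl ⟨by omega, h5⟩) h4
      · exact absurd (Or.inr ⟨by omega, h5⟩) h4
  exact (Finset.card_le_card hsub).trans
    ((Finset.card_union_le _ _).trans (Nat.add_le_add_left hb _))

/-- The set `X` and the scale `N - u`. -/
lemma construct {B : Set ℕ} {s m q N : ℕ} {θ : ℕ → ℝ} {δ e : ℝ} (hδq : 2 ^ q * δ = 1)
    (he0 : 0 < e) (he : e ≤ 1 / 8) (hδe : 32 * 5 ^ m * δ ≤ e)
    (hT : ∃ t, 1 / 2 + e ≤ T m t ∧ T m (t - s) ≤ 1 / 2 + 2 * e)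
    (hN : 0 < N) (hpos : ∀ k < m, 0 < θ k) (hlac : ∀ k, k + 1 < m → 2 ^ q * θ k ≤ θ (k + 1))
    (hlow : ∀ k < m, 2 ^ q ≤ θ k * N) (hhigh : ∀ k < m, 2 ^ q * θ k ≤ 1)
    (hqN : (2 : ℝ) ^ q ≤ N)
    (hB : ∀ b ∈ B, b ≤ N → ((Finset.range m).filter
        (fun k => 1 < 2 ^ q * |θ k * b - round (θ k * b)|)).card ≤ s) :
    ∃ (X : Set ℕ) (N' : ℕ), (∀ n : ℕ, 1 / 2 * (n : ℝ) ≤ cnt X n) ∧ N' ≤ N ∧ N ≤ 2 * N' ∧
      0 < N' ∧ (cnt (X + B) N' : ℝ) ≤ (1 / 2 + 3 * e) * N' := by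
  obtain ⟨t, ht1, ht2⟩ := hT
  have h2q : (0 : ℝ) < 2 ^ q := by positivity
  have hδ0 : 0 < δ := by
    by_contra h
    have : 2 ^ q * δ ≤ 0 := mul_nonpos_of_nonneg_of_nonpos h2q.le (not_lt.1 h)
    linarith
  have h5m : (1 : ℝ) ≤ 5 ^ m := one_le_pow₀ (by norm_num)
  have hδ32 : 32 * δ ≤ e := by nlinarith
  have hNR : (0 : ℝ) < N := by exact_mod_cast hN
  have hδN : 1 ≤ δ * N := by
    have := mul_le_mul_of_nonneg_left hqN hδ0.le
    linarith [mul_comm δ ((2 : ℝ) ^ q)]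
  have hδle : ∀ x y : ℝ, 2 ^ q * x ≤ y → x ≤ δ * y := by
    intro x y h
    have := mul_le_mul_of_nonneg_left h hδ0.le
    have e1 : δ * (2 ^ q * x) = x := by rw [← mul_assoc, mul_comm δ, hδq, one_mul]
    linarith
  -- reversed frequencies
  set ψ : ℕ → ℝ := fun k => if k < m then θ (m - 1 - k) else 1 / N with hψ
  have hψlt : ∀ k < m, ψ k = θ (m - 1 - k) := fun k hk => by rw [hψ]; exact if_pos hk
  have hψm : ψ m = 1 / N := by rw [hψ]; exact if_neg (lt_irrefl m)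
  have h1N : 1 / (N : ℝ) ≤ δ := by
    rw [div_le_iff₀ hNR]; exact hδN
  have hψ0 : ψ 0 ≤ δ := by
    rcases Nat.eq_zero_or_pos m with h | h
    · rw [← h, hψm]; exact h1N
    · rw [hψlt 0 h]
      have := hδle _ _ (hhigh (m - 1 - 0) (by omega))
      linarith
  have hψpos : ∀ k ≤ m, 0 < ψ k := by
    intro k hk
    rcases lt_or_eq_of_le hk with h | h
    · rw [hψlt k h]; exact hpos _ (by omega)
    · rw [h, hψm]; positivity
  have hψlac : ∀ k < m, ψ (k + 1) ≤ δ * ψ k := by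
    intro k hk
    rcases lt_or_eq_of_le (Nat.succ_le_of_lt hk) with h | h
    · rw [hψlt k hk, hψlt (k + 1) h]
      have := hδle _ _ (hlac (m - 1 - (k + 1)) (by omega))
      rw [show m - 1 - (k + 1) + 1 = m - 1 - k by omega] at this
      exact this
    · have h' : k + 1 = m := h
      rw [h', hψm, hψlt k hk, show m - 1 - k = 0 by omega]
      have h3 := hlow 0 (by omega)
      have h4 := hδle 1 (θ 0 * N) (by linarith)
      rw [div_le_iff₀ hNR]
      linarith [mul_assoc δ (θ 0) (N : ℝ)]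
  have hD1 : 2 * 5 ^ m * δ ≤ 1 := by nlinarith
  obtain ⟨E, hE1, hE2, hE3⟩ := equi_main hψ0 hψpos hψlac hD1 m le_rfl
  set D : ℝ := 2 * 5 ^ m * δ with hD
  have hD0 : 0 < D := by positivity
  have hDe : 16 * D ≤ e := by rw [hD]; linarith
  have hEN : E ≤ D * N := by
    rw [hψm, mul_one_div, div_le_iff₀ hNR] at hE2
    exact hE2
  set S : ℕ → Set ℕ := fun t => {x | t ≤ Fc ψ m x} with hS
  -- the minimum
  obtain ⟨u, hu1, hu2⟩ := Finset.exists_min_image (Finset.range (N + 1))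
    (fun n : ℕ => (cnt (S t) n : ℝ) - n / 2) ⟨0, Finset.mem_range.2 (by omega)⟩
  have huN : u ≤ N := Nat.lt_succ_iff.1 (Finset.mem_range.1 hu1)
  have hmin : ∀ n ≤ N, (cnt (S t) u : ℝ) - u / 2 ≤ cnt (S t) n - n / 2 := fun n hn =>
    hu2 n (Finset.mem_range.2 (by omega))
  have hu0 : (cnt (S t) u : ℝ) - u / 2 ≤ 0 := by
    have := hmin 0 (by omega)
    rw [cnt_zero] at this
    simpa using this
  have hlowS : (1 / 2 + e - D) * (u : ℝ) - E ≤ cnt (S t) u := by
    have h1 := cnt_ct (S t) (Nat.zero_le u)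
    rw [cnt_zero, zero_add] at h1
    have h2 := hE3 t ((0 + 1 : ℕ) : ℝ) ((u + 1 : ℕ) : ℝ) (by positivity)
      (by push_cast; linarith [Nat.cast_nonneg (α := ℝ) u])
    rw [← h1]
    rw [abs_le] at h2
    have h3 := h2.1
    have e1 : ((u + 1 : ℕ) : ℝ) - ((0 + 1 : ℕ) : ℝ) = u := by push_cast; ring
    rw [e1] at h3
    have h4 : (1 / 2 + e) * (u : ℝ) ≤ T m t * u :=
      mul_le_mul_of_nonneg_right ht1 (Nat.cast_nonneg _)
    change _ ≤ (ct {x | t ≤ Fc ψ m x} ((0 + 1 : ℕ) : ℝ) ((u + 1 : ℕ) : ℝ) : ℝ)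
    generalize ct {x | t ≤ Fc ψ m x} ((0 + 1 : ℕ) : ℝ) ((u + 1 : ℕ) : ℝ) = c at h3 ⊢
    have e5 : (1 / 2 + e - D) * (u : ℝ) = (1 / 2 + e) * u - D * u := by ring
    rw [e5]
    linarith
  have huhalf : 2 * u ≤ N := by
    by_contra h
    have h1 : (N : ℝ) < 2 * u := by exact_mod_cast not_le.1 h
    have h2 : (e - D) * (u : ℝ) ≤ D * N := by linarith
    have h3 : (e - D) * (N : ℝ) < (e - D) * (2 * u) :=
      mul_lt_mul_of_pos_left h1 (by linarith)
    have h4 : 3 * D * N ≤ (e - D) * N := by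
      refine mul_le_mul_of_nonneg_right ?_ hNR.le
      linarith
    have h5 : 0 < D * N := by positivity
    linarith
  have hN' : 0 < N - u := by omega
  have hN'R : ((N - u : ℕ) : ℝ) = N - u := Nat.cast_sub huN
  set X : Set ℕ := {x | x + u ∈ S t ∨ N < x + u} with hX
  have hshift : ∀ n, cnt (S t) (u + n) ≤ cnt (S t) u + cnt X n := by
    intro n
    rw [cnt_shift]
    exact Nat.add_le_add_left (cnt_mono_set (fun z hz => Or.inl hz) n) _
  have hA : ∀ n, u + n ≤ N → 1 / 2 * (n : ℝ) ≤ cnt X n := by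
    intro n hn
    have h1 := hmin (u + n) hn
    have h2 : (cnt (S t) (u + n) : ℝ) ≤ cnt (S t) u + cnt X n := by exact_mod_cast hshift n
    push_cast at h1
    linarith
  have hbeyond : ∀ j, cnt X (N - u) + j ≤ cnt X (N - u + j) := by
    intro j
    induction j with
    | zero => simp
    | succ j ih =>
      rw [← add_assoc (N - u) j 1, cnt_succ, if_pos]
      · omega
      · right
        omega
  refine ⟨X, N - u, ?_, Nat.sub_le _ _, by omega, hN', ?_⟩
  · intro n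
    by_cases hn : u + n ≤ N
    · exact hA n hn
    · have h1 := hA (N - u) (by omega)
      have h2 := hbeyond (n - (N - u))
      rw [show N - u + (n - (N - u)) = n by omega] at h2
      have h3 : (cnt X (N - u) : ℝ) + ((n - (N - u) : ℕ) : ℝ) ≤ cnt X n := by exact_mod_cast h2
      have h4 : ((n - (N - u) : ℕ) : ℝ) = n - ((N - u : ℕ) : ℝ) := Nat.cast_sub (by omega)
      rw [h4] at h3
      have h5 : ((N - u : ℕ) : ℝ) ≤ n := by exact_mod_cast (by omega : N - u ≤ n)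
      linarith
  · -- upper bound
    set Z : Finset ℕ := (Finset.range m).biUnion (fun k => zone (θ k) δ N) with hZ
    have hZcard : (Z.card : ℝ) ≤ 8 * m * (δ * N) := by
      have h1 : (Z.card : ℝ) ≤ ∑ k ∈ Finset.range m, ((zone (θ k) δ N).card : ℝ) := by
        refine (Nat.cast_le.2 Finset.card_biUnion_le).trans ?_
        push_cast
        exact le_rfl
      have h2 : ∑ k ∈ Finset.range m, ((zone (θ k) δ N).card : ℝ) ≤
          ∑ _k ∈ Finset.range m, 8 * (δ * N) := by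
        refine Finset.sum_le_sum fun k hk => ?_
        have hk' := Finset.mem_range.1 hk
        refine zone_card (hpos k hk') hδ0 (by linarith) ?_ ?_ hδN
        · have := hδle _ _ (hhigh k hk')
          linarith
        · have h3 := hδle 1 (θ k * N) (by linarith [hlow k hk'])
          have e1 : θ k * (δ * N) = δ * (θ k * N) := by ring
          rw [e1]; exact h3
      rw [Finset.sum_const, Finset.card_range, nsmul_eq_mul] at h2
      calc _ ≤ _ := h1
        _ ≤ _ := h2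
        _ = _ := by ring
    obtain ⟨Y, hY⟩ : ∃ Y : Set ℕ, Y = {z | z + u ∈ S (t - s)} := ⟨_, rfl⟩
    have hsub : (Finset.Ioc 0 (N - u)).filter (fun a => a ∈ X + B) ⊆
        (Finset.Ioc 0 (N - u)).filter (fun a => a ∈ Y) ∪
        (Finset.Ioc 0 (N - u)).filter (fun a => a + u ∈ Z) := by
      intro z hz
      rw [Finset.mem_filter, Finset.mem_Ioc] at hz
      obtain ⟨hzN, x, hx, b, hb, hxb⟩ := hz
      simp only at hxb
      rw [Finset.mem_union, Finset.mem_filter, Finset.mem_filter]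
      by_cases hzZ : z + u ∈ Z
      · exact Or.inr ⟨Finset.mem_Ioc.2 hzN, hzZ⟩
      · left
        refine ⟨Finset.mem_Ioc.2 hzN, ?_⟩
        have hxS : x + u ∈ S t := by
          rcases hx with h | h
          · exact h
          · omega
        have e1 : z + u = x + u + b := by omega
        rw [hY]
        change t - s ≤ Fc ψ m (z + u)
        have h1 : t ≤ Fc ψ m (x + u) := hxS
        rw [Fc_reflect hψlt] at h1
        rw [Fc_reflect hψlt, e1]
        have h2 := step_card (θ := θ) (m := m) (q := q) (s := s) (N := N) (y := x + u) (b := b)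
          (δ := δ) hδq (by linarith) (hB b hb (by omega)) (by omega) (by
            intro k hk hkz
            refine hzZ ?_
            rw [hZ, Finset.mem_biUnion]
            exact ⟨k, Finset.mem_range.2 hk, by rw [e1]; exact hkz⟩)
        omega
    have hc1 : cnt (X + B) (N - u) ≤ cnt Y (N - u) + Z.card := by
      refine (Finset.card_le_card hsub).trans ((Finset.card_union_le _ _).trans ?_)
      refine Nat.add_le_add le_rfl ?_
      refine Finset.card_le_card_of_injOn (fun a => a + u) ?_ ?_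
      · intro a ha
        exact (Finset.mem_filter.1 ha).2
      · intro a _ b _ hab
        simp only at hab
        omega
    have hc2 : (cnt Y (N - u) : ℝ) =
        ct (S (t - s)) ((u + 1 : ℕ) : ℝ) ((N + 1 : ℕ) : ℝ) := by
      have h1 := cnt_shift (S (t - s)) u (N - u)
      have h2 := cnt_ct (S (t - s)) huN
      rw [show u + (N - u) = N by omega, ← hY] at h1
      have : cnt Y (N - u) =
        ct (S (t - s)) ((u + 1 : ℕ) : ℝ) ((N + 1 : ℕ) : ℝ) := by omega
      exact_mod_cast this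
    have hc3 := hE3 (t - s) ((u + 1 : ℕ) : ℝ) ((N + 1 : ℕ) : ℝ) (by positivity)
      (by exact_mod_cast (by omega : u + 1 ≤ N + 1))
    have e2 : ((N + 1 : ℕ) : ℝ) - ((u + 1 : ℕ) : ℝ) = ((N - u : ℕ) : ℝ) := by
      rw [hN'R]; push_cast; ring
    rw [e2, abs_le] at hc3
    have hc4 : (ct (S (t - s)) ((u + 1 : ℕ) : ℝ) ((N + 1 : ℕ) : ℝ) : ℝ) ≤
        T m (t - s) * ((N - u : ℕ) : ℝ) + D * ((N - u : ℕ) : ℝ) + E := by
      have := hc3.2
      change (ct {x | t - s ≤ Fc ψ m x} ((u + 1 : ℕ) : ℝ) ((N + 1 : ℕ) : ℝ) : ℝ) ≤ _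
      linarith
    have hc5 : (cnt (X + B) (N - u) : ℝ) ≤
        cnt Y (N - u) + Z.card := by exact_mod_cast hc1
    set n' : ℝ := ((N - u : ℕ) : ℝ) with hn'
    have hn'0 : 0 < n' := by rw [hn']; exact_mod_cast hN'
    have hNn' : (N : ℝ) ≤ 2 * n' := by
      have : N ≤ 2 * (N - u) := by omega
      rw [hn']; exact_mod_cast this
    have hm5 : (m : ℝ) ≤ 5 ^ m := by
      exact_mod_cast (Nat.lt_pow_self (by norm_num : 1 < 5)).le
    have hZ2 : (Z.card : ℝ) ≤ 8 * D * n' := by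
      have h1 : 8 * (m : ℝ) * (δ * N) ≤ 8 * 5 ^ m * (δ * (2 * n')) := by gcongr
      have e3 : 8 * (5 : ℝ) ^ m * (δ * (2 * n')) = 8 * D * n' := by rw [hD]; ring
      linarith
    have hEn' : E ≤ 2 * D * n' := by
      have : D * N ≤ D * (2 * n') := mul_le_mul_of_nonneg_left hNn' hD0.le
      linarith
    have hTn : T m (t - s) * n' ≤ (1 / 2 + 2 * e) * n' := mul_le_mul_of_nonneg_right ht2 hn'0.le
    have hDn : 11 * D * n' ≤ e * n' := mul_le_mul_of_nonneg_right (by linarith) hn'0.le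
    rw [hc2] at hc5
    linarith

end Phase

open Phase in
theorem specPhase : SpecPhase := by
  intro B s H
  refine glue (α := 1 / 2) ?_
  intro M ε hε
  set e : ℝ := min ε 1 / 8 with he
  have he0 : 0 < e := by positivity
  have he1 : e ≤ ε / 8 := by rw [he]; gcongr; exact min_le_left _ _
  have he2 : e ≤ 1 / 8 := by rw [he]; gcongr; exact min_le_right _ _
  -- the number of frequencies
  obtain ⟨n, hn⟩ := exists_nat_ge ((((s : ℝ) + 1) / e) ^ 2)
  set κ : ℝ := 1 / Real.sqrt (2 * n + 1) with hκ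
  have hκ0 : 0 ≤ κ := by positivity
  have hκ1 : ((s : ℝ) + 1) * κ ≤ e := by
    have h1 : ((s : ℝ) + 1) / e ≤ Real.sqrt (2 * n + 1) := by
      rw [Real.le_sqrt' (by positivity)]
      have : (0 : ℝ) ≤ n := Nat.cast_nonneg n
      linarith
    have h2 : 0 < Real.sqrt (2 * n + 1) := Real.sqrt_pos.2 (by positivity)
    rw [hκ, mul_one_div, div_le_iff₀ h2]
    rw [div_le_iff₀ he0] at h1
    linarith [mul_comm e (Real.sqrt (2 * n + 1))]
  obtain ⟨t, ht1, ht2⟩ := exists_t (m := 2 * n) (κ := κ) (e := e) (by linarith) he0.le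
    (fun t => T_diff n t)
  have ht3 := T_steps (m := 2 * n) hκ0 (fun t => T_diff n t) t s
  -- the precision
  obtain ⟨q, hq⟩ := exists_pow_lt_of_lt_one
    (show 0 < e / (32 * 5 ^ (2 * n) * ((M : ℝ) + 1)) by positivity)
    (show (1 / 2 : ℝ) < 1 by norm_num)
  set δ : ℝ := (1 / 2) ^ q with hδ
  have hδ0 : 0 < δ := by positivity
  have hδq : 2 ^ q * δ = 1 := by
    rw [hδ, ← mul_pow]; norm_num
  rw [lt_div_iff₀ (by positivity)] at hq
  have h5 : (1 : ℝ) ≤ 5 ^ (2 * n) := one_le_pow₀ (by norm_num)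
  have hM0 : (0 : ℝ) ≤ M := Nat.cast_nonneg M
  have hq1 : 32 * 5 ^ (2 * n) * δ ≤ e := by
    have h1 : 0 ≤ δ * (32 * 5 ^ (2 * n)) * M := by positivity
    nlinarith
  have hq2 : 2 * ((M : ℝ) + 1) * δ ≤ e := by
    have h1 : 2 * ((M : ℝ) + 1) * δ * 1 ≤ 2 * ((M : ℝ) + 1) * δ * (16 * 5 ^ (2 * n)) := by
      refine mul_le_mul_of_nonneg_left ?_ (by positivity)
      linarith
    linarith
  obtain ⟨N, θ, hN, hpos, hlac, hlow, hhigh, hBN, hB⟩ := H (2 * n) q
  have hqN : (2 : ℝ) ^ q ≤ N := by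
    have h1 : 2 ^ q ≤ N := le_trans (Nat.le_mul_of_pos_right _ (Nat.succ_pos _)) hBN
    exact_mod_cast h1
  obtain ⟨X, N', h1, h2, h3, h4, h6⟩ := construct (B := B) (s := s) (m := 2 * n) (q := q) (N := N)
    (θ := θ) (δ := δ) (e := e) hδq he0 he2 hq1
    ⟨t, ht1, by linarith⟩ hN hpos hlac hlow hhigh hqN hB
  refine ⟨X, N', h1, h4, ?_, ?_⟩
  · have hN'0 : (0 : ℝ) ≤ N' := Nat.cast_nonneg _
    have : (1 / 2 + 3 * e) * (N' : ℝ) ≤ (1 / 2 + ε) * N' :=
      mul_le_mul_of_nonneg_right (by linarith) hN'0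
    linarith
  · have a1 : (cnt B N' : ℝ) ≤ cnt B N := by exact_mod_cast cnt_mono B h2
    have a2 : (2 : ℝ) ^ q * (cnt B N + 1) ≤ N := by exact_mod_cast hBN
    have a3 : (N : ℝ) ≤ 2 * N' := by exact_mod_cast h3
    have a4 : (cnt B N : ℝ) + 1 ≤ δ * N := by
      have := mul_le_mul_of_nonneg_left a2 hδ0.le
      have e1 : δ * (2 ^ q * ((cnt B N : ℝ) + 1)) = cnt B N + 1 := by
        rw [← mul_assoc, mul_comm δ, hδq, one_mul]
      linarith
    have a5 : ((M : ℝ) + 1) * (cnt B N' + 1) ≤ ((M : ℝ) + 1) * (δ * (2 * N')) := by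
      refine mul_le_mul_of_nonneg_left ?_ (by positivity)
      have : δ * (N : ℝ) ≤ δ * (2 * N') := mul_le_mul_of_nonneg_left a3 hδ0.le
      linarith
    have a6 : ((M : ℝ) + 1) * (δ * (2 * N')) = (2 * ((M : ℝ) + 1) * δ) * N' := by ring
    have a7 : (2 * ((M : ℝ) + 1) * δ) * N' ≤ ε * N' :=
      mul_le_mul_of_nonneg_right (by linarith) (Nat.cast_nonneg _)
    linarith

end Pool.Agent.Lib.MP_b75bf2_nt.CAP
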