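import Pool.Agent.Lib.MP_b75bf2_nt.CAP.Defs

section
/-!
# Numbers of vectors and rank bound by subset sums
-/
set_option autoImplicit false
open Classical

namespace Pool.Agent.Lib.MP_b75bf2_nt.CAP

section ball
variable {ι : Type} [Fintype ι]

/-- one step towards zero -/
lemma l1_step {u : ι → ℤ} {i : ι} (hi : u i ≠ 0) :
    l1 (u - Pi.single i (Int.sign (u i))) + 1 = l1 u := by
  unfold l1
  rw [← Finset.add_sum_erase Finset.univ _ (Finset.mem_univ i),
    ← Finset.add_sum_erase Finset.univ (fun j => (u j).natAbs) (Finset.mem_univ i)]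
  have h1 : ∑ x ∈ Finset.univ.erase i, ((u - Pi.single i (Int.sign (u i)) : ι → ℤ) x).natAbs =
      ∑ x ∈ Finset.univ.erase i, (u x).natAbs := by
    refine Finset.sum_congr rfl fun j hj => ?_
    rw [Pi.sub_apply, Pi.single_eq_of_ne (Finset.ne_of_mem_erase hj), sub_zero]
  rw [h1, Pi.sub_apply, Pi.single_eq_same]
  have h2 : (u i - Int.sign (u i)).natAbs + 1 = (u i).natAbs := by
    rcases lt_trichotomy (u i) 0 with h | h | h
    · rw [Int.sign_eq_neg_one_of_neg h]; omega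
    · exact absurd h hi
    · rw [Int.sign_eq_one_of_pos h]; omega
  omega

end ball

theorem specBall : SpecBall := by
  intro ι _ s Y
  induction s with
  | zero =>
    refine ⟨{0}, by simp, ?_⟩
    intro u hu _
    rw [Finset.mem_singleton]
    exact eq_zero_of_l1 (Nat.le_zero.1 hu)
  | succ s ih =>
    obtain ⟨W, hW, hW'⟩ := ih
    refine ⟨W.biUnion fun w => insert w (Y.image (fun i => w + Pi.single i 1) ∪
      Y.image (fun i => w + Pi.single i (-1))), ?_, ?_⟩
    · have h1 : ∀ w ∈ W, (insert w (Y.image (fun i => w + Pi.single i (1 : ℤ)) ∪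
          Y.image (fun i => w + Pi.single i (-1 : ℤ)))).card ≤ 2 * Y.card + 1 := by
        intro w _
        refine (Finset.card_insert_le _ _).trans ?_
        refine Nat.succ_le_succ ?_
        refine (Finset.card_union_le _ _).trans ?_
        have h2 := Finset.card_image_le (s := Y) (f := fun i => w + Pi.single i (1 : ℤ))
        have h3 := Finset.card_image_le (s := Y) (f := fun i => w + Pi.single i (-1 : ℤ))
        omega
      refine (Finset.card_biUnion_le_card_mul _ _ _ h1).trans ?_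
      rw [pow_succ]
      exact Nat.mul_le_mul_right _ hW
    · intro u hu hY
      rw [Finset.mem_biUnion]
      by_cases h0 : l1 u ≤ s
      · exact ⟨u, hW' u h0 hY, Finset.mem_insert_self _ _⟩
      · have h1 : u ≠ 0 := by
          rintro rfl
          rw [l1_zero] at h0
          omega
        obtain ⟨i, hi⟩ := Function.ne_iff.1 h1
        have h2 := l1_step (u := u) (i := i) hi
        refine ⟨u - Pi.single i (Int.sign (u i)), hW' _ (by omega) ?_, ?_⟩
        · intro j hj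
          by_cases hji : j = i
          · rw [hji]; exact hY i hi
          · rw [Pi.sub_apply, Pi.single_eq_of_ne hji, sub_zero] at hj
            exact hY j hj
        · refine Finset.mem_insert_of_mem ?_
          rw [Finset.mem_union, Finset.mem_image, Finset.mem_image]
          rcases lt_trichotomy (u i) 0 with h | h | h
          · right
            refine ⟨i, hY i hi, ?_⟩
            rw [Int.sign_eq_neg_one_of_neg h]
            exact sub_add_cancel _ _
          · exact absurd h hi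
          · left
            refine ⟨i, hY i hi, ?_⟩
            rw [Int.sign_eq_one_of_pos h]
            exact sub_add_cancel _ _

section count

/-- combinations of rapidly increasing numbers -/
lemma comb_lt {a : ℝ} (ha : 0 < a) {z : ℕ → ℝ} {I : Finset ℕ} (hz : ∀ i ∈ I, |z i| < 2 * 4 ^ i * a)
    {c : ℕ → ℤ} (hc : ∀ i, |c i| ≤ 1) (m : ℕ) (hm : ∀ i ∈ I, i < m) :
    |∑ i ∈ I, (c i : ℝ) * z i| < 4 ^ m * a := by
  have h1 : |∑ i ∈ I, (c i : ℝ) * z i| ≤ ∑ i ∈ I, 2 * 4 ^ i * a := by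
    refine (Finset.abs_sum_le_sum_abs _ _).trans (Finset.sum_le_sum fun i hi => ?_)
    rw [abs_mul]
    have h2 : |(c i : ℝ)| ≤ 1 := by exact_mod_cast hc i
    have h3 := (hz i hi).le
    calc |(c i : ℝ)| * |z i| ≤ 1 * |z i| := mul_le_mul_of_nonneg_right h2 (abs_nonneg _)
      _ ≤ _ := by rw [one_mul]; exact h3
  have h2 : ∑ i ∈ I, 2 * 4 ^ i * a ≤ ∑ i ∈ Finset.range m, 2 * (4 : ℝ) ^ i * a := by
    refine Finset.sum_le_sum_of_subset_of_nonneg ?_ ?_
    · intro i hi
      exact Finset.mem_range.2 (hm i hi)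
    · intro i _ _
      positivity
  have h3 : ∀ m : ℕ, 3 * ∑ i ∈ Finset.range m, 2 * (4 : ℝ) ^ i * a = 2 * (4 ^ m - 1) * a := by
    intro m
    induction m with
    | zero => simp
    | succ n ih =>
      rw [Finset.sum_range_succ, mul_add, ih, pow_succ]
      ring
  have h4 := h3 m
  have h5 : (0 : ℝ) < 4 ^ m := by positivity
  nlinarith

lemma comb_inj {a : ℝ} (ha : 0 < a) {z : ℕ → ℝ} {I : Finset ℕ} (hz : ∀ i ∈ I, |z i| < 2 * 4 ^ i * a)
    (hz' : ∀ i ∈ I, 4 ^ i * a ≤ |z i|) {c : ℕ → ℤ} (hc : ∀ i, |c i| ≤ 1)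
    (h0 : ∑ i ∈ I, (c i : ℝ) * z i = 0) : ∀ i ∈ I, c i = 0 := by
  by_contra hne
  push Not at hne
  obtain ⟨i, hi, hci⟩ := hne
  have hJ : (I.filter fun i => c i ≠ 0).Nonempty := ⟨i, Finset.mem_filter.2 ⟨hi, hci⟩⟩
  obtain ⟨m, hm, hmax⟩ := (I.filter fun i => c i ≠ 0).exists_max_image id hJ
  rw [Finset.mem_filter] at hm
  have h1 : ∑ i ∈ I, (c i : ℝ) * z i = (c m : ℝ) * z m + ∑ i ∈ I.filter (fun i => i < m), (c i : ℝ) * z i := by
    rw [← Finset.add_sum_erase I _ hm.1]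
    congr 1
    symm
    refine Finset.sum_subset ?_ ?_
    · intro j hj
      rw [Finset.mem_filter] at hj
      exact Finset.mem_erase.2 ⟨hj.2.ne, hj.1⟩
    · intro j hj hj'
      rw [Finset.mem_erase] at hj
      rw [Finset.mem_filter] at hj'
      have h2 : c j = 0 := by
        by_contra h3
        have h4 := hmax j (Finset.mem_filter.2 ⟨hj.2, h3⟩)
        have h5 : j ≤ m := h4
        exact hj' ⟨hj.2, lt_of_le_of_ne h5 hj.1⟩
      rw [h2]
      simp
  have h2 := comb_lt ha (I := I.filter (fun i => i < m)) (z := z)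
    (fun i hi => hz i (Finset.mem_filter.1 hi).1) hc m (fun i hi => (Finset.mem_filter.1 hi).2)
  have h3 : (1 : ℝ) ≤ |(c m : ℝ)| := by
    have : (1 : ℤ) ≤ |c m| := Int.one_le_abs hm.2
    exact_mod_cast this
  have h4 := hz' m hm.1
  have h5 : |(c m : ℝ) * z m| = |∑ i ∈ I.filter (fun i => i < m), (c i : ℝ) * z i| := by
    rw [h0] at h1
    have h6 : (c m : ℝ) * z m = -∑ i ∈ I.filter (fun i => i < m), (c i : ℝ) * z i := by linarith
    rw [h6, abs_neg]
  rw [abs_mul] at h5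
  have h6 : |z m| ≤ |(c m : ℝ)| * |z m| := by
    have := mul_le_mul_of_nonneg_right h3 (abs_nonneg (z m))
    linarith
  linarith

variable {ι : Type} [Fintype ι]

/-- the number of the vectors with support in `X` and coefficients at most `N` -/
lemma card_box (X : Finset ι) (N : ℕ) :
    (Fintype.piFinset (fun i => if i ∈ X then Finset.Icc (-(N : ℤ)) N else {0})).card = (2 * N + 1) ^ X.card := by
  rw [Fintype.card_piFinset]
  have h1 : ∀ i, (if i ∈ X then Finset.Icc (-(N : ℤ)) N else {0}).card = if i ∈ X then 2 * N + 1 else 1 := by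
    intro i
    split_ifs
    · rw [Int.card_Icc]
      omega
    · rfl
  rw [Finset.prod_congr rfl fun i _ => h1 i, Finset.prod_ite, Finset.prod_const, Finset.prod_const_one,
    mul_one]
  congr 2
  ext i
  simp

/-- one parity class -/
lemma count_half {e : ι → ℝ} {r T L : ℕ} {X : Finset ι} (b : ℕ) {I : Finset ℕ} (hL : 2 * r * T + 1 ≤ 2 ^ L)
    (hT : I.card ≤ T) {v : ℕ → ι → ℤ} (h1 : ∀ i ∈ I, l1 (v i) ≤ r) (h2 : ∀ i ∈ I, lev (2 * i + b) (sg e (v i)))
    (h3 : ∀ i ∈ I, ∀ j, v i j ≠ 0 → j ∈ X) : I.card ≤ L * X.card := by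
  have hpow : ∀ i : ℕ, (2 : ℝ) ^ (2 * i + b) = 4 ^ i * 2 ^ b := by
    intro i
    rw [pow_add, pow_mul]
    norm_num
  have hinj : Set.InjOn (fun J : Finset ℕ => ∑ i ∈ J, v i) (I.powerset : Set (Finset ℕ)) := by
    intro J hJ J' hJ' hJJ
    rw [Finset.mem_coe, Finset.mem_powerset] at hJ hJ'
    let c : ℕ → ℤ := fun i => (if i ∈ J then 1 else 0) - (if i ∈ J' then 1 else 0)
    have hc : ∀ i, |c i| ≤ 1 := by
      intro i
      show |(if i ∈ J then (1 : ℤ) else 0) - (if i ∈ J' then 1 else 0)| ≤ 1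
      split_ifs <;> simp
    have hs : ∀ J : Finset ℕ, J ⊆ I → ∑ i ∈ I, ((if i ∈ J then (1 : ℤ) else 0 : ℤ) : ℝ) * sg e (v i) =
        sg e (∑ i ∈ J, v i) := by
      intro J hJ
      rw [sg_sum]
      rw [← Finset.sum_subset hJ (fun i _ hi => by rw [if_neg hi]; simp)]
      refine Finset.sum_congr rfl fun i hi => ?_
      rw [if_pos hi]
      simp
    have h0 : ∑ i ∈ I, (c i : ℝ) * sg e (v i) = 0 := by
      have h4 : ∀ i, (c i : ℝ) * sg e (v i) = ((if i ∈ J then (1 : ℤ) else 0 : ℤ) : ℝ) * sg e (v i) -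
          ((if i ∈ J' then (1 : ℤ) else 0 : ℤ) : ℝ) * sg e (v i) := by
        intro i
        show (((if i ∈ J then (1 : ℤ) else 0) - (if i ∈ J' then (1 : ℤ) else 0) : ℤ) : ℝ) * _ = _
        rw [Int.cast_sub, sub_mul]
      rw [Finset.sum_congr rfl fun i _ => h4 i, Finset.sum_sub_distrib, hs J hJ, hs J' hJ']
      have h5 : (∑ i ∈ J, v i) = ∑ i ∈ J', v i := hJJ
      rw [h5, sub_self]
    have h6 := comb_inj (a := 2 ^ b) (by positivity) (z := fun i => sg e (v i)) (I := I)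
      (fun i hi => by
        have := (h2 i hi).2
        rw [pow_succ, hpow] at this
        show |sg e (v i)| < _
        linarith)
      (fun i hi => by
        have := (h2 i hi).1
        rw [hpow] at this
        exact this) hc h0
    ext i
    by_cases hi : i ∈ I
    · have h7 := h6 i hi
      have h8 : (if i ∈ J then (1 : ℤ) else 0) - (if i ∈ J' then 1 else 0) = 0 := h7
      by_cases hiJ : i ∈ J
      · by_cases hiJ' : i ∈ J'
        · simp [hiJ, hiJ']
        · simp [hiJ, hiJ'] at h8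
      · by_cases hiJ' : i ∈ J'
        · simp [hiJ, hiJ'] at h8
        · simp [hiJ, hiJ']
    · exact ⟨fun h => absurd (hJ h) hi, fun h => absurd (hJ' h) hi⟩
  have hsub : ∀ J ∈ I.powerset, (∑ i ∈ J, v i) ∈
      Fintype.piFinset (fun i => if i ∈ X then Finset.Icc (-((r * T : ℕ) : ℤ)) ((r * T : ℕ) : ℤ) else {0}) := by
    intro J hJ
    rw [Finset.mem_powerset] at hJ
    rw [Fintype.mem_piFinset]
    intro j
    by_cases hj : j ∈ X
    · rw [if_pos hj, Finset.mem_Icc]
      have h4 : ((∑ i ∈ J, v i) j).natAbs ≤ r * T := by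
        refine (natAbs_le_l1 _ j).trans ((l1_sum_le J v).trans ?_)
        refine (Finset.sum_le_sum fun i hi => h1 i (hJ hi)).trans ?_
        rw [Finset.sum_const, smul_eq_mul, mul_comm]
        exact Nat.mul_le_mul_left _ ((Finset.card_le_card hJ).trans hT)
      omega
    · rw [if_neg hj, Finset.mem_singleton, Finset.sum_apply]
      refine Finset.sum_eq_zero fun i hi => ?_
      by_contra h4
      exact hj (h3 i (hJ hi) j h4)
  have h4 := Finset.card_le_card_of_injOn _ hsub hinj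
  rw [Finset.card_powerset, card_box] at h4
  have h5 : (2 * (r * T) + 1) ^ X.card ≤ 2 ^ (L * X.card) := by
    rw [pow_mul]
    refine Nat.pow_le_pow_left ?_ _
    rw [← mul_assoc]
    exact hL
  exact (Nat.pow_le_pow_iff_right (by norm_num)).1 (h4.trans h5)

end count

theorem specCount : SpecCount := by
  intro ι _ e r T L X Λ hL hT hΛ
  choose! v hv using hΛ
  have key : ∀ b < 2, ((Finset.range T).filter (fun i => 2 * i + b ∈ Λ)).card ≤ L * X.card := by
    intro b _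
    refine count_half (e := e) b hL ((Finset.card_filter_le _ _).trans (by rw [Finset.card_range])) (v := fun i => v (2 * i + b)) ?_ ?_ ?_
    · intro i hi
      exact (hv _ (Finset.mem_filter.1 hi).2).1
    · intro i hi
      exact (hv _ (Finset.mem_filter.1 hi).2).2.1
    · intro i hi
      exact (hv _ (Finset.mem_filter.1 hi).2).2.2
  have h1 : Λ ⊆ ((Finset.range T).filter (fun i => 2 * i + 0 ∈ Λ)).image (fun i => 2 * i + 0) ∪
      ((Finset.range T).filter (fun i => 2 * i + 1 ∈ Λ)).image (fun i => 2 * i + 1) := by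
    intro k hk
    have hkT := hT k hk
    rw [Finset.mem_union, Finset.mem_image, Finset.mem_image]
    rcases Nat.even_or_odd' k with ⟨i, hi | hi⟩
    · left
      refine ⟨i, Finset.mem_filter.2 ⟨Finset.mem_range.2 (by omega), ?_⟩, by omega⟩
      rwa [add_zero, ← hi]
    · right
      refine ⟨i, Finset.mem_filter.2 ⟨Finset.mem_range.2 (by omega), ?_⟩, by omega⟩
      rwa [← hi]
  have h2 := (Finset.card_le_card h1).trans (Finset.card_union_le _ _)
  have h3 := key 0 (by norm_num)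
  have h4 := key 1 (by norm_num)
  have h5 := Finset.card_image_le (s := (Finset.range T).filter (fun i => 2 * i + 0 ∈ Λ)) (f := fun i => 2 * i + 0)
  have h6 := Finset.card_image_le (s := (Finset.range T).filter (fun i => 2 * i + 1 ∈ Λ)) (f := fun i => 2 * i + 1)
  have h7 : 2 * L * X.card = L * X.card + L * X.card := by ring
  omega

end Pool.Agent.Lib.MP_b75bf2_nt.CAP
end

section
/-!
# Assembly: parameters, the chain of scales, and the theorem
-/
set_option autoImplicit false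
open Classical
open scoped Pointwise

namespace Pool.Agent.Lib.MP_b75bf2_nt.CAP

/-- A signed sum of elements of `E` as an integer vector. -/
lemma list_vec (E : Finset ℝ) (u : ℝ) (l : List ℝ) (hl : ∀ e ∈ l, e ∈ E ∨ -e ∈ E) :
    ∃ v : {e // e ∈ E} → ℤ, l1 v ≤ l.length ∧
      sg (fun i : {e // e ∈ E} => (i : ℝ) / u) v = l.sum / u := by
  induction l with
  | nil => exact ⟨0, by simp [l1_zero], by simp [sg_zero]⟩
  | cons a l ih =>
    obtain ⟨v, hv1, hv2⟩ := ih (fun e he => hl e (List.mem_cons_of_mem _ he))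
    rcases hl a List.mem_cons_self with h | h
    · refine ⟨v + Pi.single ⟨a, h⟩ 1, ?_, ?_⟩
      · refine (l1_add_le _ _).trans ?_
        rw [l1_single, List.length_cons]
        simpa using hv1
      · rw [sg_add, sg_single, hv2, List.sum_cons]
        push_cast
        ring
    · refine ⟨v + Pi.single ⟨-a, h⟩ (-1), ?_, ?_⟩
      · refine (l1_add_le _ _).trans ?_
        rw [l1_single, List.length_cons]
        simpa using hv1
      · rw [sg_add, sg_single, hv2, List.sum_cons]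
        push_cast
        ring

/-- Disjoint pieces: a vector of norm at most `s` is non-zero on at most `s` of the differences
of an increasing sequence of sets. -/
lemma card_pieces {ι : Type} [Fintype ι] (Z : ℕ → Finset ι) (hZ : Monotone Z) (v : ι → ℤ)
    (S : Finset ℕ) (hS : ∀ k ∈ S, ∃ y, y ∈ Z (k + 1) ∧ y ∉ Z k ∧ v y ≠ 0) :
    S.card ≤ l1 v := by
  refine le_trans ?_ (card_supp_le_l1 v)
  rcases isEmpty_or_nonempty ι with hι | hι
  · rw [Finset.card_eq_zero.2, Finset.card_eq_zero.2]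
    · exact Finset.eq_empty_of_isEmpty _
    · refine Finset.eq_empty_of_forall_notMem (fun k hk => ?_)
      obtain ⟨y, _⟩ := hS k hk
      exact hι.elim y
  choose! f hf using hS
  refine Finset.card_le_card_of_injOn f (fun k hk => ?_) ?_
  · rw [Finset.mem_coe, Finset.mem_filter]
    exact ⟨Finset.mem_univ _, (hf k hk).2.2⟩
  · intro k hk l hl hkl
    by_contra hne
    rcases lt_or_gt_of_ne hne with h | h
    · exact (hf l hl).2.1 (hkl ▸ hZ (Nat.succ_le_of_lt h) (hf k hk).1)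
    · exact (hf k hk).2.1 (hkl ▸ hZ (Nat.succ_le_of_lt h) (hf l hl).1)

/-- Exponents of the scales. -/
def aa (D μ : ℕ) : ℕ → ℕ
  | 0 => 0
  | k + 1 => D * (aa D μ k + μ)

lemma aa_le (D μ : ℕ) (hD : 1 ≤ D) (k : ℕ) : aa D μ k ≤ (2 * D) ^ k * μ := by
  induction k with
  | zero => simp [aa]
  | succ k ih =>
    have h1 : 1 ≤ (2 * D) ^ k := Nat.one_le_pow _ _ (by omega)
    calc aa D μ (k + 1) = D * (aa D μ k + μ) := rfl
      _ ≤ D * ((2 * D) ^ k * μ + (2 * D) ^ k * μ) := by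
          refine Nat.mul_le_mul_left _ (Nat.add_le_add ih ?_)
          nlinarith
      _ = (2 * D) ^ (k + 1) * μ := by ring

lemma aa_mono (D μ : ℕ) (hD : 1 ≤ D) : Monotone (aa D μ) := by
  refine monotone_nat_of_le_succ (fun k => ?_)
  show aa D μ k ≤ D * (aa D μ k + μ)
  nlinarith

lemma two_mul_le_pow (s : ℕ) : s + 1 ≤ 2 ^ s := Nat.lt_two_pow_self

/-- The inequality between consecutive scales. -/
lemma scale_ineq (s q a μ y : ℕ) (hμ1 : q + 4 ≤ μ) (hμ2 : s + 6 ≤ μ)
    (hy : y ≤ (2 ^ a + 3) * (2 * (2 * s) * (2 ^ μ * 4 ^ a) ^ (2 * s))) :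
    2 ^ a + q * ((2 * y + 1) ^ s + 3) + 1 ≤ 2 ^ ((1 + s + 4 * s ^ 2) * (a + μ)) := by
  have h2 : ∀ n : ℕ, 1 ≤ 2 ^ n := fun n => Nat.one_le_two_pow
  have h1 : y ≤ 2 ^ (a + 2) * (2 ^ (2 + s) * 2 ^ (2 * s * (μ + 2 * a))) := by
    refine hy.trans (Nat.mul_le_mul ?_ (Nat.mul_le_mul ?_ ?_))
    · have := h2 a
      rw [pow_add]; omega
    · have := two_mul_le_pow s
      rw [pow_add]; omega
    · have : (2 ^ μ * 4 ^ a : ℕ) = 2 ^ (μ + 2 * a) := by
        rw [pow_add, pow_mul]; norm_num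
      rw [this, ← pow_mul, mul_comm]
  have h3 : 2 * y + 1 ≤ 2 ^ (a + 6 + s + 2 * s * (μ + 2 * a)) := by
    have e1 : 2 ^ (a + 2) * (2 ^ (2 + s) * 2 ^ (2 * s * (μ + 2 * a))) =
        2 ^ (a + 4 + s + 2 * s * (μ + 2 * a)) := by
      rw [← pow_add, ← pow_add]; congr 1; ring
    rw [e1] at h1
    have e2 : 2 ^ (a + 6 + s + 2 * s * (μ + 2 * a)) =
        4 * 2 ^ (a + 4 + s + 2 * s * (μ + 2 * a)) := by
      rw [show a + 6 + s + 2 * s * (μ + 2 * a) = (a + 4 + s + 2 * s * (μ + 2 * a)) + 2 by ring,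
        pow_add]
      ring
    rw [e2]
    have := h2 (a + 4 + s + 2 * s * (μ + 2 * a))
    omega
  have h4 : (2 * y + 1) ^ s ≤ 2 ^ (s * (a + 6 + s + 2 * s * (μ + 2 * a))) := by
    rw [mul_comm s, pow_mul]
    exact Nat.pow_le_pow_left h3 s
  set g := s * (a + 6 + s + 2 * s * (μ + 2 * a)) with hg
  have h5 : q * ((2 * y + 1) ^ s + 3) ≤ 2 ^ (q + 2 + g) := by
    have e1 : q ≤ 2 ^ q := by have := two_mul_le_pow q; omega
    have e2 := h2 g
    calc q * ((2 * y + 1) ^ s + 3) ≤ 2 ^ q * (2 ^ g + 3 * 2 ^ g) := by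
          refine Nat.mul_le_mul e1 ?_
          omega
      _ = 2 ^ (q + 2 + g) := by rw [pow_add, pow_add]; ring
  have h6 : 2 ^ a + 2 ^ (q + 2 + g) + 1 ≤ 2 ^ (q + 4 + g + a) := by
    have e1 : 2 ^ a ≤ 2 ^ (q + 2 + g + a) := Nat.pow_le_pow_right (by norm_num) (by omega)
    have e2 : 2 ^ (q + 2 + g) ≤ 2 ^ (q + 2 + g + a) := Nat.pow_le_pow_right (by norm_num) (by omega)
    have e3 := h2 (q + 2 + g + a)
    have e4 : 2 ^ (q + 4 + g + a) = 4 * 2 ^ (q + 2 + g + a) := by
      rw [show q + 4 + g + a = (q + 2 + g + a) + 2 by ring, pow_add]; ring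
    omega
  have h7 : q + 4 + g + a ≤ (1 + s + 4 * s ^ 2) * (a + μ) := by
    rw [hg]
    nlinarith [Nat.mul_le_mul_left s hμ2, Nat.zero_le (s * a), Nat.zero_le (s ^ 2 * μ),
      Nat.zero_le (s ^ 2 * a)]
  have h8 := Nat.pow_le_pow_right (n := 2) (by norm_num) h7
  omega

lemma sq_le_two_pow {n : ℕ} (hn : 4 ≤ n) : n ^ 2 ≤ 2 ^ n := by
  induction n, hn using Nat.le_induction with
  | base => norm_num
  | succ n hn ih =>
    rw [pow_succ 2 n]
    nlinarith

/-- Choice of the parameters. -/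
lemma params (s m q : ℕ) : ∃ c : ℝ, 0 < c ∧ ∃ T₀ : ℕ, ∀ T : ℕ, T₀ ≤ T → ∀ n : ℕ,
    (n : ℝ) < (T : ℝ) ^ (1 + c) → ∃ μ L : ℕ, q + 4 ≤ μ ∧ s + 6 ≤ μ ∧
      2 * (2 * s) * T + 1 ≤ 2 ^ L ∧ 64 * L * n ≤ 2 ^ μ * T ∧ 32 ≤ T ∧
      4 * 2 ^ ((2 * (1 + s + 4 * s ^ 2)) ^ m * μ) ≤ T ∧
      ∀ j : ℕ, T ≤ 2 * j → 2 ^ (q + 3) * (2 * n + 1) ^ s ≤ 2 ^ j := by
  set G := (2 * (1 + s + 4 * s ^ 2)) ^ m with hG
  have hG1 : 1 ≤ G := Nat.one_le_pow _ _ (by omega)
  have hG0 : (0 : ℝ) < G := by exact_mod_cast hG1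
  refine ⟨1 / (2 * G), by positivity, 2 ^ (2 * G *
    (1024 * (4 * G + s + 3) + 2 * (q + 3 + 6 * s) + q + s + 16)), ?_⟩
  intro T hT n hn
  set t₀ := 1024 * (4 * G + s + 3) + 2 * (q + 3 + 6 * s) + q + s + 16 with ht₀
  have hT1 : 1 ≤ T := le_trans Nat.one_le_two_pow hT
  set l := Nat.log 2 T with hl
  have hl1 : 2 ^ l ≤ T := Nat.pow_log_le_self 2 (by omega)
  have hl2 : T < 2 ^ (l + 1) := Nat.lt_pow_succ_log_self (by norm_num) T
  have hl3 : 2 * G * t₀ ≤ l := Nat.le_log_of_pow_le (by norm_num) hT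
  set t := l / (2 * G) with ht
  have ht1 : 2 * G * t ≤ l := Nat.mul_div_le l (2 * G)
  have ht2 : l < 2 * G * (t + 1) := by
    rw [mul_comm]
    exact Nat.lt_mul_of_div_lt (Nat.lt_succ_self _) (by omega)
  have ht3 : t₀ ≤ t := (Nat.le_div_iff_mul_le (by omega)).2 (by rw [mul_comm]; exact hl3)
  have htl : t ≤ l := Nat.div_le_self _ _
  set μ := (l - 2) / G with hμ
  have hμ1 : G * μ ≤ l - 2 := Nat.mul_div_le _ _
  have hμ2 : 2 * t - 2 ≤ μ := by
    refine (Nat.le_div_iff_mul_le (by omega)).2 ?_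
    have h1 : (2 * t - 2) * G + 2 * G ≤ l := by
      have h2 : (2 * t - 2) + 2 = 2 * t := by omega
      calc (2 * t - 2) * G + 2 * G = ((2 * t - 2) + 2) * G := by ring
        _ = 2 * G * t := by rw [h2]; ring
        _ ≤ l := ht1
    omega
  -- the bound for `n`
  have hn2 : n ≤ T * 2 ^ (t + 1) := by
    have h1 : (T : ℝ) ^ (1 / (2 * (G : ℝ))) ≤ 2 ^ (t + 1) := by
      have h2 : (T : ℝ) ≤ (2 ^ (t + 1)) ^ (2 * G) := by
        have h3 : T ≤ (2 ^ (t + 1)) ^ (2 * G) := by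
          rw [← pow_mul]
          refine hl2.le.trans (Nat.pow_le_pow_right (by norm_num) ?_)
          rw [mul_comm]; omega
        exact_mod_cast h3
      calc (T : ℝ) ^ (1 / (2 * (G : ℝ))) ≤ ((2 ^ (t + 1)) ^ (2 * G) : ℝ) ^ (1 / (2 * (G : ℝ))) :=
            Real.rpow_le_rpow (by positivity) h2 (by positivity)
        _ = 2 ^ (t + 1) := by
            rw [← Real.rpow_natCast (2 ^ (t + 1)) (2 * G), ← Real.rpow_mul (by positivity)]
            push_cast
            rw [mul_one_div_cancel (by positivity), Real.rpow_one]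
    have h4 : (T : ℝ) ^ (1 + 1 / (2 * (G : ℝ))) ≤ T * 2 ^ (t + 1) := by
      rw [Real.rpow_add (by exact_mod_cast hT1), Real.rpow_one]
      exact mul_le_mul_of_nonneg_left h1 (by positivity)
    have h5 : (n : ℝ) ≤ ((T * 2 ^ (t + 1) : ℕ) : ℝ) := by
      push_cast
      exact hn.le.trans h4
    exact_mod_cast h5
  have ht4 : 4 ≤ t := by omega
  have hsq := sq_le_two_pow ht4
  refine ⟨μ, l + s + 3, by omega, by omega, ?_, ?_, ?_, ?_, ?_⟩
  · -- `L`
    have h1 : s + 1 ≤ 2 ^ s := two_mul_le_pow s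
    have h2 : 2 ^ (l + s + 3) = 2 ^ s * 4 * 2 ^ (l + 1) := by
      rw [show l + s + 3 = s + 2 + (l + 1) by ring, pow_add, pow_add]
      norm_num
    rw [h2]
    calc 2 * (2 * s) * T + 1 ≤ (4 * s + 1) * T := by nlinarith
      _ ≤ (2 ^ s * 4) * 2 ^ (l + 1) := Nat.mul_le_mul (by omega) hl2.le
  · -- the number of elements
    have h1 : 64 * (l + s + 3) * 2 ^ (t + 1) ≤ 2 ^ μ := by
      have h2 : l + s + 3 ≤ (4 * G + s + 3) * t := by
        have : l + s + 3 ≤ 2 * G * (t + 1) + s + 3 := by omega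
        nlinarith
      have h3 : 512 * (l + s + 3) ≤ 2 ^ t := by
        refine le_trans ?_ hsq
        have h4 : 512 * (4 * G + s + 3) ≤ t := by omega
        nlinarith
      have h5 : 2 ^ (2 * t - 2) ≤ 2 ^ μ := Nat.pow_le_pow_right (by norm_num) hμ2
      have h6 : 2 ^ (2 * t - 2) * 8 = 2 ^ t * 2 ^ (t + 1) := by
        rw [show (8 : ℕ) = 2 ^ 3 by norm_num, ← pow_add, ← pow_add]
        congr 1
        omega
      have h7 : 64 * (l + s + 3) * 2 ^ (t + 1) * 8 ≤ 2 ^ μ * 8 := by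
        calc 64 * (l + s + 3) * 2 ^ (t + 1) * 8 = (512 * (l + s + 3)) * 2 ^ (t + 1) := by ring
          _ ≤ 2 ^ t * 2 ^ (t + 1) := Nat.mul_le_mul_right _ h3
          _ = 2 ^ (2 * t - 2) * 8 := h6.symm
          _ ≤ 2 ^ μ * 8 := Nat.mul_le_mul_right _ h5
      exact Nat.le_of_mul_le_mul_right h7 (by norm_num)
    calc 64 * (l + s + 3) * n ≤ 64 * (l + s + 3) * (T * 2 ^ (t + 1)) := Nat.mul_le_mul_left _ hn2
      _ = 64 * (l + s + 3) * 2 ^ (t + 1) * T := by ring
      _ ≤ 2 ^ μ * T := Nat.mul_le_mul_right _ h1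
  · calc 32 = 2 ^ 5 := by norm_num
      _ ≤ 2 ^ l := Nat.pow_le_pow_right (by norm_num) (by omega)
      _ ≤ T := hl1
  · have h1 : 2 ^ (G * μ) ≤ 2 ^ (l - 2) := Nat.pow_le_pow_right (by norm_num) hμ1
    have h2 : 2 ^ l = 2 ^ (l - 2) * 4 := by
      rw [show (4 : ℕ) = 2 ^ 2 by norm_num, ← pow_add]
      congr 1
      omega
    generalize 2 ^ (G * μ) = z1 at h1
    generalize 2 ^ (l - 2) = z2 at h1 h2
    omega
  · intro j hj
    have h1 : 2 * n + 1 ≤ 2 ^ (l + t + 4) := by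
      have h2 : n ≤ 2 ^ (l + 1) * 2 ^ (t + 1) := hn2.trans (Nat.mul_le_mul_right _ hl2.le)
      rw [← pow_add] at h2
      have h3 : 2 ^ (l + t + 4) = 4 * 2 ^ (l + 1 + (t + 1)) := by
        rw [show (4 : ℕ) = 2 ^ 2 by norm_num, ← pow_add]
        congr 1
        ring
      have h4 : 1 ≤ 2 ^ (l + 1 + (t + 1)) := Nat.one_le_two_pow
      omega
    have h2 : (2 * n + 1) ^ s ≤ 2 ^ (s * (l + t + 4)) := by
      rw [mul_comm s, pow_mul]
      exact Nat.pow_le_pow_left h1 s
    calc 2 ^ (q + 3) * (2 * n + 1) ^ s ≤ 2 ^ (q + 3) * 2 ^ (s * (l + t + 4)) :=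
          Nat.mul_le_mul_left _ h2
      _ = 2 ^ (q + 3 + s * (l + t + 4)) := by rw [← pow_add]
      _ ≤ 2 ^ j := by
          refine Nat.pow_le_pow_right (by norm_num) ?_
          have h3 : q + 3 + s * (l + t + 4) ≤ (q + 3 + 6 * s) * l := by
            have e1 : s * (l + t + 4) ≤ s * (6 * l) := Nat.mul_le_mul_left _ (by omega)
            have e2 : q + 3 ≤ (q + 3) * l := Nat.le_mul_of_pos_right _ (by omega)
            have e3 : (q + 3 + 6 * s) * l = (q + 3) * l + s * (6 * l) := by ring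
            omega
          have h4 : 2 * (q + 3 + 6 * s) ≤ l := by omega
          have h5 : 2 * ((q + 3 + 6 * s) * l) ≤ l ^ 2 := by
            have e1 := Nat.mul_le_mul_right l h4
            have e2 : 2 * (q + 3 + 6 * s) * l = 2 * ((q + 3 + 6 * s) * l) := by ring
            rw [pow_two]
            omega
          have h6 := sq_le_two_pow (show 4 ≤ l by omega)
          generalize 2 ^ l = z at h6 hl1
          generalize (q + 3 + 6 * s) * l = z2 at h3 h5
          generalize q + 3 + s * (l + t + 4) = z3 at h3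
          omega

lemma card_near (S : Finset ℕ) (y u : ℝ) (hu : 0 ≤ u) (h : ∀ b ∈ S, |(b : ℝ) - y| ≤ u) :
    (S.card : ℝ) ≤ 2 * u + 1 := by
  rcases S.eq_empty_or_nonempty with rfl | hS
  · simp; linarith
  have h1 : S ⊆ Finset.Icc (S.min' hS) (S.max' hS) := fun b hb =>
    Finset.mem_Icc.2 ⟨S.min'_le b hb, S.le_max' b hb⟩
  have h2 := Finset.card_le_card h1
  rw [Nat.card_Icc] at h2
  have h3 := abs_le.1 (h _ (S.min'_mem hS))
  have h4 := abs_le.1 (h _ (S.max'_mem hS))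
  have h5 : (S.card : ℝ) + S.min' hS ≤ S.max' hS + 1 := by
    have h6 : S.min' hS ≤ S.max' hS := S.min'_le_max' hS
    have h7 : S.card + S.min' hS ≤ S.max' hS + 1 := by omega
    exact_mod_cast h7
  linarith

/-- Number of elements of a set of integers close to few numbers. -/
lemma cnt_cover (B : Set ℕ) (N : ℕ) {κ : Type} (W : Finset κ) (f : κ → ℝ) (u : ℝ) (hu : 1 ≤ u)
    (h : ∀ b ∈ B, b ≤ N → ∃ w ∈ W, |(b : ℝ) - f w| ≤ u) :
    (cnt B N : ℝ) ≤ W.card * (3 * u) := by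
  have h1 : (Finset.Ioc 0 N).filter (fun b => b ∈ B) ⊆
      W.biUnion (fun w => (Finset.Ioc 0 N).filter (fun b => |(b : ℝ) - f w| ≤ u)) := by
    intro b hb
    rw [Finset.mem_filter] at hb
    obtain ⟨w, hw, hw2⟩ := h b hb.2 (Finset.mem_Ioc.1 hb.1).2
    rw [Finset.mem_biUnion]
    exact ⟨w, hw, Finset.mem_filter.2 ⟨hb.1, hw2⟩⟩
  have h2 := (Finset.card_le_card h1).trans Finset.card_biUnion_le
  have h3 : (cnt B N : ℝ) ≤
      ∑ w ∈ W, (((Finset.Ioc 0 N).filter (fun b : ℕ => |(b : ℝ) - f w| ≤ u)).card : ℝ) := by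
    unfold cnt
    exact_mod_cast h2
  refine h3.trans ?_
  rw [← nsmul_eq_mul]
  refine Finset.sum_le_card_nsmul _ _ _ (fun w _ => ?_)
  refine (card_near _ (f w) u (by linarith) (fun b hb => (Finset.mem_filter.1 hb).2)).trans ?_
  linarith

/-- The frequencies. -/
lemma phases (hBall : SpecBall) (hWin : SpecWindow) (hStep : SpecStep) (B : Set ℕ)
    (s m q : ℕ) : ∃ c : ℝ, 0 < c ∧ ∃ T₀ : ℕ, ∀ T : ℕ, T₀ ≤ T → ∀ x : ℕ, 2 ^ T ≤ x →
      ∀ E : Finset ℝ,
      (∀ b ∈ B, b ≤ x → ∃ l : List ℝ, l.length ≤ s ∧ (∀ e ∈ l, e ∈ E ∨ -e ∈ E) ∧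
        |(b : ℝ) - l.sum| * 2 ^ T ≤ x) → (E.card : ℝ) < (T : ℝ) ^ (1 + c) →
      ∃ (N : ℕ) (θ : ℕ → ℝ), 0 < N ∧ (∀ k < m, 0 < θ k) ∧
      (∀ k, k + 1 < m → 2 ^ q * θ k ≤ θ (k + 1)) ∧ (∀ k < m, 2 ^ q ≤ θ k * N) ∧
      (∀ k < m, 2 ^ q * θ k ≤ 1) ∧ 2 ^ q * (cnt B N + 1) ≤ N ∧
      ∀ b ∈ B, b ≤ N → ((Finset.range m).filter
        (fun k => 1 < 2 ^ q * |θ k * b - round (θ k * b)|)).card ≤ s := by
  obtain ⟨c, hc, T₀, hT₀⟩ := params s m (q + 3)
  refine ⟨c, hc, T₀, fun T hT x hx E hE hcard => ?_⟩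
  obtain ⟨μ, L, hμ1, hμ2, hL, hn, hT32, hTm, hthin⟩ := hT₀ T hT E.card hcard
  set D := 1 + s + 4 * s ^ 2 with hD
  have hD1 : 1 ≤ D := by omega
  set u : ℝ := x / 2 ^ T with hu
  have hu1 : 1 ≤ u := by
    rw [hu, le_div_iff₀ (by positivity), one_mul]
    exact_mod_cast hx
  have hu0 : 0 < u := by linarith
  set e : {e // e ∈ E} → ℝ := fun i => (i : ℝ) / u with he
  obtain ⟨j, Y, hj1, hj2, hYm, hYc, hYh⟩ := hWin {e // e ∈ E} e (2 * s) T L (2 ^ μ)
    (by positivity) hL (by rw [Fintype.card_coe]; exact hn) hT32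
  have hv : ∀ b ∈ B, b ≤ x → ∃ v : {e // e ∈ E} → ℤ, l1 v ≤ s ∧
      |(b : ℝ) / u - sg e v| ≤ 1 := by
    intro b hb hbx
    obtain ⟨l, hl1, hl2, hl3⟩ := hE b hb hbx
    obtain ⟨v, hv1, hv2⟩ := list_vec E u l hl2
    refine ⟨v, hv1.trans hl1, ?_⟩
    rw [hv2, ← sub_div, abs_div, abs_of_pos hu0, div_le_one hu0]
    conv_rhs => rw [hu]
    rw [le_div_iff₀ (by positivity)]
    exact hl3
  set N : ℕ := ⌊(2 : ℝ) ^ j * u⌋₊ with hN
  have hj3 : (4 : ℝ) ≤ 2 ^ j := by
    have : (2 : ℝ) ^ 2 ≤ 2 ^ j := pow_le_pow_right₀ (by norm_num) (by omega)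
    linarith
  have hN1 : (N : ℝ) ≤ 2 ^ j * u := Nat.floor_le (by positivity)
  have hN2 : (2 : ℝ) ^ j * u < N + 1 := Nat.lt_floor_add_one _
  have hN3 : (2 : ℝ) ^ j * u / 2 ≤ N := by nlinarith
  have hNx : N ≤ x := by
    have h1 : (2 : ℝ) ^ j * u ≤ x := by
      have h2 : (2 : ℝ) ^ j ≤ 2 ^ T := pow_le_pow_right₀ (by norm_num) (by omega)
      calc (2 : ℝ) ^ j * u ≤ 2 ^ T * u := mul_le_mul_of_nonneg_right h2 hu0.le
        _ = x := by rw [hu]; field_simp
    exact_mod_cast hN1.trans h1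
  set P : Set ℝ := {z | ∃ b ∈ B, b ≤ N ∧ z = (b : ℝ) / u} with hP
  have hv' : ∀ z ∈ P, ∃ v : {e // e ∈ E} → ℤ, l1 v ≤ s ∧ |z - sg e v| ≤ 1 := by
    rintro z ⟨b, hb, hbN, rfl⟩
    exact hv b hb (hbN.trans hNx)
  choose! v hv1 hv2 using hv'
  have hstep : ∀ k < m, ∃ θ : ℝ, 2 ^ (q + 3 + 2 ^ aa D μ k) ≤ θ * 2 ^ j ∧
      θ * 2 ^ j * 2 ^ (2 * (q + 3)) ≤ 2 ^ (2 ^ aa D μ (k + 1)) ∧
      ∀ z ∈ P, (∀ y ∈ Y (aa D μ (k + 1)), y ∉ Y (aa D μ k) → v z y = 0) →
        |θ * z - round (θ * z)| * 2 ^ (q + 3) ≤ 2 := by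
    intro k hk
    have hw : 2 ^ aa D μ (k + 1) + 1 ≤ j := by
      have h1 : aa D μ (k + 1) ≤ (2 * D) ^ m * μ :=
        (aa_le D μ hD1 (k + 1)).trans (Nat.mul_le_mul_right _
          (Nat.pow_le_pow_right (by omega) (by omega)))
      have h2 : 2 ^ aa D μ (k + 1) ≤ 2 ^ ((2 * D) ^ m * μ) :=
        Nat.pow_le_pow_right (by norm_num) h1
      omega
    refine hStep {e // e ∈ E} e s j (2 ^ aa D μ k) (2 ^ aa D μ (k + 1))
      ((2 * (Y (aa D μ k)).card + 1) ^ s) (q + 3) (Y (aa D μ k)) (Y (aa D μ (k + 1))) P v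
      (hYm (aa_mono D μ hD1 (Nat.le_succ k))) hw le_rfl ?_ ?_ ?_
    · exact scale_ineq s (q + 3) (aa D μ k) μ _ hμ1 hμ2 (hYc _)
    · intro u hu1 hu2 hu3
      exact hYh (aa D μ (k + 1)) u (by omega) hu1 hu2 hu3
    · intro z hz
      refine ⟨?_, ?_, hv1 z hz, hv2 z hz⟩
      · obtain ⟨b, _, _, rfl⟩ := hz
        positivity
      · obtain ⟨b, _, hbN, rfl⟩ := hz
        rw [div_le_iff₀ hu0]
        refine le_trans ?_ hN1
        exact_mod_cast hbN
  choose! θ hθ1 hθ2 hθ3 using hstep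
  have hjpos : (0 : ℝ) < 2 ^ j := by positivity
  have hθ0 : ∀ k < m, 0 < θ k := by
    intro k hk
    have h1 := hθ1 k hk
    have h2 : (0 : ℝ) < 2 ^ (q + 3 + 2 ^ aa D μ k) := by positivity
    exact pos_of_mul_pos_left (lt_of_lt_of_le h2 h1) hjpos.le
  have hq : (2 : ℝ) ^ q ≤ 2 ^ (2 * (q + 3)) := pow_le_pow_right₀ (by norm_num) (by omega)
  refine ⟨N, fun k => θ k / u, ?_, ?_, ?_, ?_, ?_, ?_, ?_⟩
  · have : (0 : ℝ) < N := by nlinarith
    exact_mod_cast this
  · intro k hk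
    exact div_pos (hθ0 k hk) hu0
  · intro k hk
    have h0 := hθ0 k (by omega)
    have h1 := hθ2 k (by omega)
    have h2 := hθ1 (k + 1) hk
    have h3 : (2 : ℝ) ^ (2 ^ aa D μ (k + 1)) ≤ 2 ^ (q + 3 + 2 ^ aa D μ (k + 1)) :=
      pow_le_pow_right₀ (by norm_num) (by omega)
    have h4 : θ k * 2 ^ (2 * (q + 3)) * 2 ^ j ≤ θ (k + 1) * 2 ^ j := by linarith
    have h5 := le_of_mul_le_mul_right h4 hjpos
    show 2 ^ q * (θ k / u) ≤ θ (k + 1) / u
    rw [mul_div_assoc', div_le_div_iff_of_pos_right hu0]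
    nlinarith
  · intro k hk
    have h0 := hθ0 k hk
    have h1 := hθ1 k hk
    have h2 : (2 : ℝ) ^ q * 2 ≤ 2 ^ (q + 3 + 2 ^ aa D μ k) := by
      rw [← pow_succ]
      refine pow_le_pow_right₀ (by norm_num) ?_
      have := Nat.zero_le (2 ^ aa D μ k)
      omega
    show 2 ^ q ≤ θ k / u * N
    have h3 : θ k / u * (2 ^ j * u / 2) ≤ θ k / u * N :=
      mul_le_mul_of_nonneg_left hN3 (by positivity)
    have h4 : θ k / u * (2 ^ j * u / 2) = θ k * 2 ^ j / 2 := by field_simp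
    linarith
  · intro k hk
    have h0 := hθ0 k hk
    have h1 := hθ2 k hk
    have hw : 2 ^ aa D μ (k + 1) + 1 ≤ j := by
      have h1 : aa D μ (k + 1) ≤ (2 * D) ^ m * μ :=
        (aa_le D μ hD1 (k + 1)).trans (Nat.mul_le_mul_right _
          (Nat.pow_le_pow_right (by omega) (by omega)))
      have h2 : 2 ^ aa D μ (k + 1) ≤ 2 ^ ((2 * D) ^ m * μ) :=
        Nat.pow_le_pow_right (by norm_num) h1
      omega
    have h2 : (2 : ℝ) ^ (2 ^ aa D μ (k + 1)) ≤ 2 ^ j :=
      pow_le_pow_right₀ (by norm_num) (by omega)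
    have h3 : θ k * 2 ^ (2 * (q + 3)) * 2 ^ j ≤ 1 * 2 ^ j := by linarith
    have h4 := le_of_mul_le_mul_right h3 hjpos
    show 2 ^ q * (θ k / u) ≤ 1
    rw [mul_div_assoc', div_le_one hu0]
    nlinarith
  · obtain ⟨W, hW1, hW2⟩ := hBall {e // e ∈ E} s Finset.univ
    have h1 := cnt_cover B N W (fun w => u * sg e w) u hu1 (by
      intro b hb hbN
      obtain ⟨w, hw1, hw2⟩ := hv b hb (hbN.trans hNx)
      refine ⟨w, hW2 w hw1 (fun i _ => Finset.mem_univ i), ?_⟩
      have h3 : (b : ℝ) - u * sg e w = u * (b / u - sg e w) := by field_simp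
      rw [h3, abs_mul, abs_of_pos hu0]
      nlinarith)
    rw [Finset.card_univ, Fintype.card_coe] at hW1
    have h2 : (2 : ℝ) ^ (q + 3 + 3) * (2 * E.card + 1) ^ s ≤ 2 ^ j := by
      exact_mod_cast hthin j hj1
    have h3 : (W.card : ℝ) ≤ (2 * E.card + 1) ^ s := by exact_mod_cast hW1
    have h4 : (1 : ℝ) ≤ (2 * E.card + 1) ^ s := by
      refine one_le_pow₀ ?_
      have : (0 : ℝ) ≤ E.card := Nat.cast_nonneg _
      linarith
    have h5 : ((2 ^ q * (cnt B N + 1) : ℕ) : ℝ) ≤ N := by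
      refine le_trans ?_ hN3
      push_cast
      set K : ℝ := (2 * E.card + 1) ^ s with hK
      have h6 : (2 : ℝ) ^ (q + 3 + 3) = 2 ^ q * 64 := by rw [pow_add, pow_add]; norm_num; ring
      rw [h6] at h2
      have hq0 : (0 : ℝ) < 2 ^ q := by positivity
      have h7 : (cnt B N : ℝ) + 1 ≤ 4 * (K * u) := by
        have h8 : (W.card : ℝ) * (3 * u) ≤ K * (3 * u) :=
          mul_le_mul_of_nonneg_right h3 (by positivity)
        have h9 : 1 ≤ K * u := by nlinarith
        nlinarith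
      have h8 := mul_le_mul_of_nonneg_right h2 hu0.le
      have h9 : 0 < 2 ^ q * (K * u) := mul_pos hq0 (mul_pos (lt_of_lt_of_le one_pos h4) hu0)
      have h10 := mul_le_mul_of_nonneg_left h7 hq0.le
      linarith
    exact_mod_cast h5
  · intro b hb hbN
    set z : ℝ := (b : ℝ) / u with hz
    have hzP : z ∈ P := ⟨b, hb, hbN, rfl⟩
    refine (card_pieces (fun k => Y (aa D μ k)) (fun a a' h => hYm (aa_mono D μ hD1 h)) (v z) _
      (fun k hk => ?_)).trans (hv1 z hzP)
    rw [Finset.mem_filter, Finset.mem_range] at hk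
    obtain ⟨hkm, hk⟩ := hk
    by_contra hcon
    push Not at hcon
    have h1 := hθ3 k hkm z hzP hcon
    have h2 : θ k / u * b = θ k * z := by rw [hz]; ring
    rw [h2] at hk
    have h3 : (2 : ℝ) ^ (q + 3) = 2 ^ q * 8 := by rw [pow_add]; norm_num
    rw [h3] at h1
    linarith

/-- The theorem follows from the modules. -/
theorem specFinal (hBall : SpecBall) (hWin : SpecWindow) (hStep : SpecStep)
    (hPhase : SpecPhase) : SpecFinal := by
  intro B h0 hB s
  by_contra hcon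
  push Not at hcon
  obtain ⟨X, hX0, hX1, hX2⟩ := hPhase B s (by
    intro m q
    obtain ⟨c, hc, T₀, h⟩ := phases hBall hWin hStep B s m q
    obtain ⟨T, hT, x, hx, E, hE, hcard⟩ := hcon c hc T₀
    exact h T hT x hx E hE hcard)
  have h1 : schnirelmannDensity X ≤ schnirelmannDensity (X + B) := by
    refine schnirelmannDensity_le_of_subset ?_
    intro a ha
    exact ⟨a, ha, 0, h0, by simp⟩
  have h2 := hB X hX0 (by linarith) (by linarith)
  linarith

end Pool.Agent.Lib.MP_b75bf2_nt.CAP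
end

section
/-!
# Few levels have no small hitting set
-/
set_option autoImplicit false
open Classical

namespace Pool.Agent.Lib.MP_b75bf2_nt.CAP

section
variable {ι : Type} [Fintype ι]

/-- the support -/
noncomputable def spt (v : ι → ℤ) : Finset ι := Finset.univ.filter fun i => v i ≠ 0

lemma mem_spt {v : ι → ℤ} {i : ι} : i ∈ spt v ↔ v i ≠ 0 := by simp [spt]

/-- disjoint vectors in a level without small hitting sets -/
lemma exists_family {e : ι → ℝ} {r k K : ℕ} (hK : ¬ ∃ Y : Finset ι, Y.card ≤ K ∧ Hit e r k Y) (n : ℕ)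
    (hn : r * n ≤ K + r) : ∃ D : Finset (ι → ℤ), D.card = n ∧ (∀ v ∈ D, l1 v ≤ r ∧ lev k (sg e v)) ∧
      (D : Set (ι → ℤ)).PairwiseDisjoint spt := by
  induction n with
  | zero => exact ⟨∅, rfl, by simp, by simp⟩
  | succ n ih =>
    have hn' : r * n ≤ K := by
      rw [Nat.mul_succ] at hn
      omega
    obtain ⟨D, h1, h2, h3⟩ := ih (by omega)
    have h4 : (D.biUnion spt).card ≤ K := by
      refine (Finset.card_biUnion_le).trans ?_
      have h5 : ∀ v ∈ D, (spt v).card ≤ r := fun v hv => (card_supp_le_l1 v).trans (h2 v hv).1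
      refine (Finset.sum_le_sum h5).trans ?_
      rw [Finset.sum_const, h1, smul_eq_mul, mul_comm]
      exact hn'
    have h5 : ¬ Hit e r k (D.biUnion spt) := fun h => hK ⟨_, h4, h⟩
    unfold Hit at h5
    push Not at h5
    obtain ⟨v, hv1, hv2, hv3⟩ := h5
    have hdis : ∀ w ∈ D, Disjoint (spt v) (spt w) := by
      intro w hw
      rw [Finset.disjoint_left]
      intro i hi hi'
      exact mem_spt.1 hi (hv3 i (Finset.mem_biUnion.2 ⟨w, hw, hi'⟩))
    have hvD : v ∉ D := by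
      intro hvD
      have h6 := hdis v hvD
      rw [disjoint_self] at h6
      have h7 : v = 0 := by
        funext i
        by_contra h8
        have h9 : i ∈ spt v := mem_spt.2 h8
        rw [h6] at h9
        exact absurd h9 (Finset.notMem_empty i)
      exact ne_zero_of_lev hv2 h7
    refine ⟨insert v D, by rw [Finset.card_insert_of_notMem hvD, h1], ?_, ?_⟩
    · intro w hw
      rcases Finset.mem_insert.1 hw with rfl | hw
      · exact ⟨hv1, hv2⟩
      · exact h2 w hw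
    · rw [Finset.coe_insert]
      refine h3.insert fun w hw _ => hdis w hw

/-- the maps to the first `M` numbers -/
noncomputable def Om (ι : Type) [Fintype ι] (M : ℕ) : Finset (ι → ℕ) := Fintype.piFinset fun _ => Finset.range M

lemma card_Om (M : ℕ) : (Om ι M).card = M ^ Fintype.card ι := by
  unfold Om
  rw [Fintype.card_piFinset]
  simp

/-- the maps which are zero on `U` -/
lemma card_zero {M : ℕ} (hM : 0 < M) (U : Finset ι) :
    ((Om ι M).filter fun f => ∀ i ∈ U, f i = 0).card * M ^ U.card = M ^ Fintype.card ι := by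
  have h1 : (Om ι M).filter (fun f => ∀ i ∈ U, f i = 0) =
      Fintype.piFinset (fun i => if i ∈ U then {0} else Finset.range M) := by
    ext f
    rw [Finset.mem_filter, Om, Fintype.mem_piFinset, Fintype.mem_piFinset]
    constructor
    · rintro ⟨h, h'⟩ i
      by_cases hi : i ∈ U
      · rw [if_pos hi, Finset.mem_singleton]; exact h' i hi
      · rw [if_neg hi]; exact h i
    · intro h
      refine ⟨fun i => ?_, fun i hi => ?_⟩
      · have := h i
        by_cases hi : i ∈ U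
        · rw [if_pos hi, Finset.mem_singleton] at this
          rw [this]; exact Finset.mem_range.2 hM
        · rw [if_neg hi] at this; exact this
      · have := h i
        rw [if_pos hi, Finset.mem_singleton] at this
        exact this
  have h2 : M ^ U.card = ∏ i : ι, if i ∈ U then M else 1 := by
    rw [Finset.prod_ite, Finset.prod_const, Finset.prod_const_one, mul_one]
    congr 2
    ext i
    simp
  rw [h1, Fintype.card_piFinset, h2, ← Finset.prod_mul_distrib]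
  have h3 : ∀ i : ι, (if i ∈ U then ({0} : Finset ℕ) else Finset.range M).card * (if i ∈ U then M else 1) = M := by
    intro i
    split_ifs
    · simp
    · simp
  rw [Finset.prod_congr rfl fun i _ => h3 i]
  simp

/-- the number of the vectors of `D` whose support lies in the fibre of zero -/
noncomputable def cn (D : Finset (ι → ℤ)) (f : ι → ℕ) : ℝ := ∑ v ∈ D, if ∀ i ∈ spt v, f i = 0 then 1 else 0

/-- the second moment -/
lemma second {M r : ℕ} (hM : 0 < M) {D : Finset (ι → ℤ)} (h1 : ∀ v ∈ D, (spt v).card ≤ r)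
    (h2 : (D : Set (ι → ℤ)).PairwiseDisjoint spt) (h3 : 2 * M ^ r ≤ D.card) :
    M ^ Fintype.card ι ≤ 2 * ((Om ι M).filter fun f => ∃ v ∈ D, ∀ i ∈ spt v, f i = 0).card := by
  set n := Fintype.card ι
  have hM' : (0 : ℝ) < M := by exact_mod_cast hM
  have hM1 : (1 : ℝ) ≤ M := by exact_mod_cast hM
  have hU : ∀ U : Finset ι, (((Om ι M).filter fun f => ∀ i ∈ U, f i = 0).card : ℝ) =
      (M : ℝ) ^ n * ((M : ℝ) ^ U.card)⁻¹ := by
    intro U
    rw [eq_mul_inv_iff_mul_eq₀ (by positivity)]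
    exact_mod_cast card_zero hM U
  set mu : ℝ := ∑ v ∈ D, ((M : ℝ) ^ (spt v).card)⁻¹ with hmu
  have hmu2 : 2 ≤ mu := by
    have h4 : ∀ v ∈ D, ((M : ℝ) ^ r)⁻¹ ≤ ((M : ℝ) ^ (spt v).card)⁻¹ := by
      intro v hv
      exact inv_anti₀ (by positivity) (pow_le_pow_right₀ hM1 (h1 v hv))
    have h5 : (D.card : ℝ) * ((M : ℝ) ^ r)⁻¹ ≤ mu := by
      rw [hmu, ← nsmul_eq_mul]
      exact Finset.card_nsmul_le_sum _ _ _ h4
    have h6 : (2 : ℝ) * (M : ℝ) ^ r ≤ D.card := by exact_mod_cast h3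
    have h7 : (2 : ℝ) ≤ (D.card : ℝ) * ((M : ℝ) ^ r)⁻¹ := by
      rw [le_mul_inv_iff₀ (by positivity)]
      exact h6
    linarith
  have e1 : ∑ f ∈ Om ι M, cn D f = (M : ℝ) ^ n * mu := by
    unfold cn
    rw [Finset.sum_comm, hmu, Finset.mul_sum]
    refine Finset.sum_congr rfl fun v _ => ?_
    rw [Finset.sum_boole, hU]
  have e2 : ∑ f ∈ Om ι M, cn D f ^ 2 ≤ (M : ℝ) ^ n * (mu + mu ^ 2) := by
    have h4 : ∀ f, cn D f ^ 2 = ∑ v ∈ D, ∑ w ∈ D, if (∀ i ∈ spt v ∪ spt w, f i = 0) then (1 : ℝ) else 0 := by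
      intro f
      unfold cn
      rw [sq, Finset.sum_mul_sum]
      refine Finset.sum_congr rfl fun v _ => Finset.sum_congr rfl fun w _ => ?_
      by_cases hv : ∀ i ∈ spt v, f i = 0
      · by_cases hw : ∀ i ∈ spt w, f i = 0
        · rw [if_pos hv, if_pos hw, if_pos, mul_one]
          intro i hi
          rcases Finset.mem_union.1 hi with h | h
          · exact hv i h
          · exact hw i h
        · rw [if_pos hv, if_neg hw, if_neg, mul_zero]
          exact fun h => hw fun i hi => h i (Finset.mem_union_right _ hi)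
      · have hvw : ¬ ∀ i ∈ spt v ∪ spt w, f i = 0 := fun h => hv fun i hi => h i (Finset.mem_union_left _ hi)
        rw [if_neg hv, if_neg hvw, zero_mul]
    rw [Finset.sum_congr rfl fun f _ => h4 f, Finset.sum_comm]
    have h5 : ∀ v ∈ D, ∑ f ∈ Om ι M, ∑ w ∈ D, (if (∀ i ∈ spt v ∪ spt w, f i = 0) then (1 : ℝ) else 0) ≤
        (M : ℝ) ^ n * (((M : ℝ) ^ (spt v).card)⁻¹ + ((M : ℝ) ^ (spt v).card)⁻¹ * mu) := by
      intro v hv
      rw [Finset.sum_comm]
      have h6 : ∀ w ∈ D, ∑ f ∈ Om ι M, (if (∀ i ∈ spt v ∪ spt w, f i = 0) then (1 : ℝ) else 0) ≤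
          (M : ℝ) ^ n * ((if w = v then ((M : ℝ) ^ (spt v).card)⁻¹ else 0) +
            ((M : ℝ) ^ (spt v).card)⁻¹ * ((M : ℝ) ^ (spt w).card)⁻¹) := by
        intro w hw
        rw [Finset.sum_boole, hU]
        refine mul_le_mul_of_nonneg_left ?_ (by positivity)
        by_cases hvw : w = v
        · rw [if_pos hvw, hvw, Finset.union_self]
          have : 0 ≤ ((M : ℝ) ^ (spt v).card)⁻¹ * ((M : ℝ) ^ (spt v).card)⁻¹ := by positivity
          linarith
        · rw [if_neg hvw, zero_add, Finset.card_union_of_disjoint (h2 hv hw (Ne.symm hvw)), pow_add, mul_inv]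
      refine (Finset.sum_le_sum h6).trans (le_of_eq ?_)
      rw [← Finset.mul_sum, Finset.sum_add_distrib, Finset.sum_ite_eq' D v, if_pos hv, ← Finset.mul_sum]
    refine (Finset.sum_le_sum h5).trans (le_of_eq ?_)
    rw [← Finset.mul_sum, Finset.sum_add_distrib, ← Finset.sum_mul, ← hmu]
    ring
  set A := (Om ι M).filter fun f => ∃ v ∈ D, ∀ i ∈ spt v, f i = 0 with hA
  have e3 : ∑ f ∈ A, cn D f = (M : ℝ) ^ n * mu := by
    rw [← e1]
    refine Finset.sum_subset (Finset.filter_subset _ _) ?_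
    intro f hf hf'
    unfold cn
    refine Finset.sum_eq_zero fun v hv => ?_
    rw [if_neg]
    intro h
    exact hf' (Finset.mem_filter.2 ⟨hf, v, hv, h⟩)
  have e4 : ∑ f ∈ A, cn D f ^ 2 ≤ (M : ℝ) ^ n * (mu + mu ^ 2) :=
    (Finset.sum_le_sum_of_subset_of_nonneg (Finset.filter_subset _ _) fun f _ _ => sq_nonneg _).trans e2
  have e5 := sq_sum_le_card_mul_sum_sq (s := A) (f := cn D)
  rw [e3] at e5
  have e6 : ((M : ℝ) ^ n * mu) ^ 2 ≤ A.card * ((M : ℝ) ^ n * (mu + mu ^ 2)) :=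
    e5.trans (mul_le_mul_of_nonneg_left e4 (by positivity))
  have hp : (0 : ℝ) < (M : ℝ) ^ n := by positivity
  have e7 : (M : ℝ) ^ n * mu ≤ A.card * (1 + mu) := by
    have h8 : ((M : ℝ) ^ n * mu) * ((M : ℝ) ^ n * mu) ≤ (A.card * (1 + mu)) * ((M : ℝ) ^ n * mu) := by
      calc ((M : ℝ) ^ n * mu) * ((M : ℝ) ^ n * mu) = ((M : ℝ) ^ n * mu) ^ 2 := by ring
        _ ≤ _ := e6
        _ = _ := by ring
    exact le_of_mul_le_mul_right h8 (by positivity)
  have e8 : (M : ℝ) ^ n ≤ 2 * A.card := by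
    have h9 : (0 : ℝ) ≤ A.card := Nat.cast_nonneg _
    have h10 : (A.card : ℝ) * (1 + mu) ≤ (2 * A.card) * mu := by nlinarith
    have h11 : (M : ℝ) ^ n * mu ≤ (2 * A.card) * mu := e7.trans h10
    exact le_of_mul_le_mul_right h11 (by linarith)
  exact_mod_cast e8

end

theorem specRare (h : SpecCount) : SpecRare := by
  intro ι _ e r T L M K hM hL hK
  set n := Fintype.card ι with hn
  set Bad := (Finset.range T).filter (fun k => ¬ ∃ Y : Finset ι, Y.card ≤ K ∧ Hit e r k Y) with hBad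
  let X : (ι → ℕ) → Finset ι := fun f => Finset.univ.filter fun i => f i = 0
  let Q : ℕ → (ι → ℕ) → Prop := fun k f => ∃ v : ι → ℤ, l1 v ≤ r ∧ lev k (sg e v) ∧ ∀ i, v i ≠ 0 → i ∈ X f
  have h1 : ∀ k ∈ Bad, M ^ n ≤ 2 * ((Om ι M).filter fun f => Q k f).card := by
    intro k hk
    rw [hBad, Finset.mem_filter] at hk
    obtain ⟨D, hD1, hD2, hD3⟩ := exists_family hk.2 (2 * M ^ r) (by
      calc r * (2 * M ^ r) = 2 * r * M ^ r := by ring
        _ ≤ K := hK
        _ ≤ K + r := Nat.le_add_right _ _)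
    refine (second hM (fun v hv => (card_supp_le_l1 v).trans (hD2 v hv).1) hD3 hD1.ge).trans ?_
    refine Nat.mul_le_mul_left _ (Finset.card_le_card ?_)
    intro f hf
    rw [Finset.mem_filter] at hf ⊢
    obtain ⟨hf1, v, hv, hf2⟩ := hf
    refine ⟨hf1, v, (hD2 v hv).1, (hD2 v hv).2, fun i hi => ?_⟩
    exact Finset.mem_filter.2 ⟨Finset.mem_univ _, hf2 i (mem_spt.2 hi)⟩
  have h2 : ∀ f ∈ Om ι M, (Bad.filter fun k => Q k f).card ≤ 2 * L * (X f).card := by
    intro f _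
    refine h ι e r T L (X f) _ hL ?_ ?_
    · intro k hk
      exact Finset.mem_range.1 (Finset.mem_filter.1 (Finset.mem_filter.1 hk).1).1
    · intro k hk
      exact (Finset.mem_filter.1 hk).2
  have h3 : ∑ k ∈ Bad, ((Om ι M).filter fun f => Q k f).card = ∑ f ∈ Om ι M, (Bad.filter fun k => Q k f).card := by
    simp only [Finset.card_filter]
    exact Finset.sum_comm
  have h4 : M * ∑ f ∈ Om ι M, (X f).card = n * M ^ n := by
    have h5 : ∑ f ∈ Om ι M, (X f).card = ∑ i : ι, ((Om ι M).filter fun f => f i = 0).card := by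
      simp only [X, Finset.card_filter]
      exact Finset.sum_comm
    rw [h5, Finset.mul_sum]
    have h6 : ∀ i : ι, M * ((Om ι M).filter fun f => f i = 0).card = M ^ n := by
      intro i
      have := card_zero (ι := ι) hM {i}
      rw [Finset.card_singleton, pow_one, mul_comm] at this
      simpa using this
    rw [Finset.sum_congr rfl fun i _ => h6 i, Finset.sum_const, smul_eq_mul, Finset.card_univ]
  have h5 : Bad.card * M ^ n ≤ 2 * ∑ f ∈ Om ι M, (2 * L * (X f).card) := by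
    calc Bad.card * M ^ n = ∑ k ∈ Bad, M ^ n := by rw [Finset.sum_const, smul_eq_mul]
      _ ≤ ∑ k ∈ Bad, 2 * ((Om ι M).filter fun f => Q k f).card := Finset.sum_le_sum h1
      _ = 2 * ∑ f ∈ Om ι M, (Bad.filter fun k => Q k f).card := by rw [← Finset.mul_sum, h3]
      _ ≤ _ := Nat.mul_le_mul_left _ (Finset.sum_le_sum h2)
  have h6 : (M * Bad.card) * M ^ n ≤ (4 * L * n) * M ^ n := by
    calc (M * Bad.card) * M ^ n = M * (Bad.card * M ^ n) := by ring
      _ ≤ M * (2 * ∑ f ∈ Om ι M, (2 * L * (X f).card)) := Nat.mul_le_mul_left _ h5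
      _ = 4 * L * (M * ∑ f ∈ Om ι M, (X f).card) := by rw [← Finset.mul_sum]; ring
      _ = (4 * L * n) * M ^ n := by rw [h4]; ring
  exact Nat.le_of_mul_le_mul_right h6 (pow_pos hM n)

end Pool.Agent.Lib.MP_b75bf2_nt.CAP
end

section
/-!
# The pigeonhole step (M4): a frequency which kills all the elements without new coefficients
-/
set_option autoImplicit false
open Classical

namespace Pool.Agent.Lib.MP_b75bf2_nt.CAP

/-- Simultaneous approximation (Dirichlet) by the pigeonhole principle. -/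
lemma dirichlet_step {κ : Type} [Fintype κ] (q n : ℕ) (hn : Fintype.card κ ≤ n) (x : κ → ℝ) :
    ∃ k : ℕ, 1 ≤ k ∧ k ≤ 2 ^ (q * n) ∧
      ∀ i, |(k : ℝ) * x i - round ((k : ℝ) * x i)| * 2 ^ q ≤ 1 := by
  have hq : (0 : ℝ) < 2 ^ q := by positivity
  have hbox : ∀ y : ℝ, ⌊(2 : ℝ) ^ q * Int.fract y⌋₊ < 2 ^ q := by
    intro y
    rw [Nat.floor_lt (mul_nonneg hq.le (Int.fract_nonneg y))]
    push_cast
    have := Int.fract_lt_one y
    nlinarith
  let f : Fin (2 ^ (q * n) + 1) → (κ → Fin (2 ^ q)) :=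
    fun k i => ⟨⌊(2 : ℝ) ^ q * Int.fract (((k : ℕ) : ℝ) * x i)⌋₊, hbox _⟩
  have hcard : Fintype.card (κ → Fin (2 ^ q)) < Fintype.card (Fin (2 ^ (q * n) + 1)) := by
    rw [Fintype.card_fun, Fintype.card_fin, Fintype.card_fin, ← pow_mul]
    exact Nat.lt_succ_of_le (Nat.pow_le_pow_right (by norm_num) (Nat.mul_le_mul_left q hn))
  obtain ⟨a, b, hab, hfab⟩ := Fintype.exists_ne_map_eq_of_card_lt f hcard
  -- the symmetric statement for `a < b`
  have key : ∀ a b : Fin (2 ^ (q * n) + 1), a < b → f a = f b →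
      ∃ k : ℕ, 1 ≤ k ∧ k ≤ 2 ^ (q * n) ∧
        ∀ i, |(k : ℝ) * x i - round ((k : ℝ) * x i)| * 2 ^ q ≤ 1 := by
    intro a b hlt heq
    have hlt' : (a : ℕ) < b := hlt
    have hb := b.2
    refine ⟨(b : ℕ) - a, by omega, by omega, fun i => ?_⟩
    have h1 : ⌊(2 : ℝ) ^ q * Int.fract (((a : ℕ) : ℝ) * x i)⌋₊ =
        ⌊(2 : ℝ) ^ q * Int.fract (((b : ℕ) : ℝ) * x i)⌋₊ := by
      have := congrFun heq i
      exact congrArg Fin.val this
    have ha0 : 0 ≤ (2 : ℝ) ^ q * Int.fract (((a : ℕ) : ℝ) * x i) :=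
      mul_nonneg hq.le (Int.fract_nonneg _)
    have hb0 : 0 ≤ (2 : ℝ) ^ q * Int.fract (((b : ℕ) : ℝ) * x i) :=
      mul_nonneg hq.le (Int.fract_nonneg _)
    have ha1 := Nat.floor_le ha0
    have ha2 := Nat.lt_floor_add_one ((2 : ℝ) ^ q * Int.fract (((a : ℕ) : ℝ) * x i))
    have hb1 := Nat.floor_le hb0
    have hb2 := Nat.lt_floor_add_one ((2 : ℝ) ^ q * Int.fract (((b : ℕ) : ℝ) * x i))
    rw [h1] at ha1 ha2
    have hd : |Int.fract (((b : ℕ) : ℝ) * x i) - Int.fract (((a : ℕ) : ℝ) * x i)| * 2 ^ q ≤ 1 := by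
      have h2 : |(2 : ℝ) ^ q * Int.fract (((b : ℕ) : ℝ) * x i) -
          (2 : ℝ) ^ q * Int.fract (((a : ℕ) : ℝ) * x i)| ≤ 1 := by
        rw [abs_le]
        constructor <;> linarith
      rw [← mul_sub, abs_mul, abs_of_pos hq] at h2
      rw [mul_comm]
      exact h2
    have hcast : (((b : ℕ) - a : ℕ) : ℝ) = ((b : ℕ) : ℝ) - ((a : ℕ) : ℝ) := by
      rw [Nat.cast_sub hlt'.le]
    have h3 : |(((b : ℕ) - a : ℕ) : ℝ) * x i - round ((((b : ℕ) - a : ℕ) : ℝ) * x i)| ≤
        |Int.fract (((b : ℕ) : ℝ) * x i) - Int.fract (((a : ℕ) : ℝ) * x i)| := by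
      refine (round_le _ (⌊((b : ℕ) : ℝ) * x i⌋ - ⌊((a : ℕ) : ℝ) * x i⌋)).trans (le_of_eq ?_)
      congr 1
      rw [hcast]
      push_cast
      have e1 := Int.self_sub_floor (((b : ℕ) : ℝ) * x i)
      have e2 := Int.self_sub_floor (((a : ℕ) : ℝ) * x i)
      rw [← e1, ← e2]
      ring
    exact (mul_le_mul_of_nonneg_right h3 hq.le).trans hd
  rcases lt_or_gt_of_ne hab with h | h
  · exact key a b h hfab
  · exact key b a h hfab.symm

theorem specStep (hball : SpecBall) : SpecStep := by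
  intro ι _ e s j w w' n q Y Y' P v hYY hwj hn hw hgap hP
  obtain ⟨W, hWcard, hWmem⟩ := hball ι s Y
  have hWn : Fintype.card {u // u ∈ W} ≤ n := by
    rw [Fintype.card_coe]
    exact hWcard.trans hn
  -- restriction to `Y`
  let R : ℝ → ι → ℤ := fun b i => if i ∈ Y then v b i else 0
  let Good : ℝ → Prop := fun b => b ∈ P ∧ ∀ y ∈ Y', y ∉ Y → v b y = 0
  let β : (ι → ℤ) → ℝ := fun u => if h : ∃ b, Good b ∧ R b = u then h.choose else 0
  have hβ : ∀ b, Good b → Good (β (R b)) ∧ R (β (R b)) = R b := by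
    intro b hb
    have hex : ∃ b', Good b' ∧ R b' = R b := ⟨b, hb, rfl⟩
    have : β (R b) = hex.choose := dif_pos hex
    rw [this]
    exact hex.choose_spec
  have hRW : ∀ b, Good b → R b ∈ W := by
    intro b hb
    refine hWmem _ ?_ ?_
    · refine le_trans (Finset.sum_le_sum fun i _ => ?_) (hP b hb.1).2.2.1
      by_cases hi : i ∈ Y
      · simp [R, hi]
      · simp [R, hi]
    · intro i hi
      by_contra hc
      exact hi (by simp [R, hc])
  have h2j : (0 : ℝ) < 2 ^ j := by positivity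
  have h2q : (1 : ℝ) ≤ 2 ^ q := one_le_pow₀ (by norm_num)
  obtain ⟨k, hk1, hk2, hk⟩ := dirichlet_step q n hWn
    (fun u : {u // u ∈ W} => (2 : ℝ) ^ (q + w) / 2 ^ j * β u)
  have hθj : (k : ℝ) * ((2 : ℝ) ^ (q + w) / 2 ^ j) * 2 ^ j = k * 2 ^ (q + w) := by
    field_simp
  have hk1' : (1 : ℝ) ≤ k := by exact_mod_cast hk1
  have hk2' : (k : ℝ) ≤ 2 ^ (q * n) := by exact_mod_cast hk2
  have hbig : (k : ℝ) * 2 ^ (q + w) * 2 ^ (2 * q) * 2 ≤ 2 ^ w' := by
    calc (k : ℝ) * 2 ^ (q + w) * 2 ^ (2 * q) * 2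
        ≤ 2 ^ (q * n) * 2 ^ (q + w) * 2 ^ (2 * q) * 2 := by
          have : (0 : ℝ) ≤ 2 ^ (q + w) * 2 ^ (2 * q) * 2 := by positivity
          nlinarith [mul_le_mul_of_nonneg_right hk2' this]
      _ = 2 ^ (w + q * (n + 3) + 1) := by
          rw [← pow_add, ← pow_add, ← pow_succ]
          congr 1
          ring
      _ ≤ 2 ^ w' := pow_le_pow_right₀ (by norm_num) hw
  refine ⟨k * ((2 : ℝ) ^ (q + w) / 2 ^ j), ?_, ?_, ?_⟩
  · rw [hθj]
    have : (0 : ℝ) < 2 ^ (q + w) := by positivity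
    nlinarith
  · rw [hθj]
    have : (0 : ℝ) ≤ (k : ℝ) * 2 ^ (q + w) * 2 ^ (2 * q) := by positivity
    linarith
  · intro b hb hb0
    have hG : Good b := ⟨hb, hb0⟩
    obtain ⟨hG', hR'⟩ := hβ b hG
    set b' : ℝ := β (R b) with hb'
    obtain ⟨p1, p2, p3, p4⟩ := hP b hb
    obtain ⟨r1, r2, r3, r4⟩ := hP b' hG'.1
    -- the difference
    have hzero : ∀ y ∈ Y', (v b - v b') y = 0 := by
      intro y hy
      by_cases hyY : y ∈ Y
      · have := congrFun hR' y
        simp only [R, hyY, if_true] at this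
        simp [this]
      · simp [hb0 y hy hyY, hG'.2 y hy hyY]
    have hl1 : l1 (v b - v b') ≤ 2 * s := by
      have := l1_sub_le (v b) (v b')
      omega
    have hsg : |sg e (v b - v b') - (b - b')| ≤ 2 := by
      rw [sg_sub]
      have : sg e (v b) - sg e (v b') - (b - b') = -(b - sg e (v b)) + (b' - sg e (v b')) := by
        ring
      rw [this]
      refine (abs_add_le _ _).trans ?_
      rw [abs_neg]
      linarith
    have hbb : |b - b'| ≤ 2 ^ j := by
      rw [abs_le]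
      constructor <;> linarith
    have hj2 : (4 : ℝ) ≤ 2 ^ j := by
      calc (4 : ℝ) = 2 ^ 2 := by norm_num
        _ ≤ 2 ^ j := pow_le_pow_right₀ (by norm_num) (by omega)
    have hsg1 : |sg e (v b - v b')| ≤ |b - b'| + 2 := by
      have h := abs_sub_abs_le_abs_sub (sg e (v b - v b')) (b - b')
      linarith
    have hsg2 : |b - b'| ≤ |sg e (v b - v b')| + 2 := by
      have h := abs_sub_abs_le_abs_sub (b - b') (sg e (v b - v b'))
      rw [abs_sub_comm (b - b')] at h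
      linarith
    have hlt : |sg e (v b - v b')| < 2 ^ (j + 1) := by
      rw [pow_succ]
      linarith
    have hgap' := hgap _ hl1 hzero hlt
    have h2w : (0 : ℝ) < 2 ^ w' := by positivity
    have hwj' : (2 : ℝ) ^ w' * 2 ≤ 2 ^ j := by
      rw [← pow_succ]
      exact pow_le_pow_right₀ (by norm_num) hwj
    have hdiff : |b - b'| * 2 ^ w' ≤ 2 * 2 ^ j := by
      have := mul_le_mul_of_nonneg_right hsg2 h2w.le
      rw [add_mul] at this
      linarith
    set θ : ℝ := k * ((2 : ℝ) ^ (q + w) / 2 ^ j) with hθ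
    have hθ0 : 0 ≤ θ := by positivity
    have hθbb : θ * |b - b'| * 2 ^ (2 * q) ≤ 1 := by
      -- multiply by `2 ^ w' * 2 ^ j`
      have h1 : θ * |b - b'| * 2 ^ (2 * q) * 2 ^ w' ≤ 1 * 2 ^ w' := by
        calc θ * |b - b'| * 2 ^ (2 * q) * 2 ^ w'
            = θ * 2 ^ (2 * q) * (|b - b'| * 2 ^ w') := by ring
          _ ≤ θ * 2 ^ (2 * q) * (2 * 2 ^ j) :=
              mul_le_mul_of_nonneg_left hdiff (by positivity)
          _ = θ * 2 ^ j * 2 ^ (2 * q) * 2 := by ring
          _ = k * 2 ^ (q + w) * 2 ^ (2 * q) * 2 := by rw [hθj]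
          _ ≤ 1 * 2 ^ w' := by rw [one_mul]; exact hbig
      exact le_of_mul_le_mul_right h1 h2w
    have hkβ := hk ⟨R b, hRW b hG⟩
    have hkβ' : |θ * b' - round (θ * b')| * 2 ^ q ≤ 1 := by
      have e1 : (k : ℝ) * ((2 : ℝ) ^ (q + w) / 2 ^ j * β (R b)) = θ * b' := by
        rw [hθ, hb']
        ring
      simp only [e1] at hkβ
      exact hkβ
    have h5 : |θ * b - round (θ * b)| ≤ θ * |b - b'| + |θ * b' - round (θ * b')| := by
      refine (round_le (θ * b) (round (θ * b'))).trans ?_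
      have : θ * b - (round (θ * b') : ℝ) = θ * (b - b') + (θ * b' - round (θ * b')) := by ring
      rw [this]
      refine (abs_add_le _ _).trans ?_
      rw [abs_mul, abs_of_nonneg hθ0]
    have h6 : θ * |b - b'| * 2 ^ q ≤ 1 := by
      have hq2 : (2 : ℝ) ^ q ≤ 2 ^ (2 * q) := pow_le_pow_right₀ (by norm_num) (by omega)
      have h0 : 0 ≤ θ * |b - b'| := mul_nonneg hθ0 (abs_nonneg _)
      exact (mul_le_mul_of_nonneg_left hq2 h0).trans hθbb
    have h7 := mul_le_mul_of_nonneg_right h5 (by positivity : (0 : ℝ) ≤ 2 ^ q)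
    rw [add_mul] at h7
    linarith

end Pool.Agent.Lib.MP_b75bf2_nt.CAP
end

section
/-!
# CAP: a level with small hitting sets in all the windows below it
-/
set_option autoImplicit false
open Classical

namespace Pool.Agent.Lib.MP_b75bf2_nt.CAP

section
variable {ι : Type} [Fintype ι]

/-- the level `k` has a hitting set of at most `K` elements -/
def Small (e : ι → ℝ) (r k K : ℕ) : Prop := ∃ Y : Finset ι, Y.card ≤ K ∧ Hit e r k Y

lemma Small.mono {e : ι → ℝ} {r k K K' : ℕ} (h : Small e r k K) (hK : K ≤ K') :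
    Small e r k K' := by
  obtain ⟨Y, h1, h2⟩ := h
  exact ⟨Y, h1.trans hK, h2⟩

/-- for every level a minimal hitting set -/
lemma exists_minimal (e : ι → ℝ) (r : ℕ) :
    ∃ H : ℕ → Finset ι, ∀ k K, Small e r k K → (H k).card ≤ K ∧ Hit e r k (H k) := by
  have h : ∀ k, ∃ Y : Finset ι, ∀ K, Small e r k K → Y.card ≤ K ∧ Hit e r k Y := by
    intro k
    by_cases hk : ∃ K, Small e r k K
    · obtain ⟨Y, h1, h2⟩ := Nat.find_spec hk
      refine ⟨Y, fun K hK => ⟨h1.trans (Nat.find_min' hk hK), h2⟩⟩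
    · exact ⟨∅, fun K hK => absurd ⟨K, hK⟩ hk⟩
  choose H hH using h
  exact ⟨H, hH⟩

/-- few levels near which there is a bad level: there is a level without bad levels near it -/
lemma exists_good (T : ℕ) (hT : 32 ≤ T) (bad : ℕ → Finset ℕ)
    (hbad : ∀ a, (bad a).card * (16 * 4 ^ a) ≤ T) :
    ∃ j, T ≤ 2 * j ∧ j + 2 ≤ T ∧ ∀ a, 2 ^ a ≤ j → ∀ k ∈ bad a, k ≤ j → j < k + 2 ^ a + 1 → False := by
  by_contra hcon
  push Not at hcon
  set J : Finset ℕ := Finset.Icc (T - T / 2) (T - 2) with hJ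
  have h1 : J ⊆ (Finset.range T).biUnion fun a => (bad a).biUnion fun k =>
      Finset.Icc k (k + 2 ^ a) := by
    intro j hj
    rw [hJ, Finset.mem_Icc] at hj
    obtain ⟨a, ha, k, hk, hk1, hk2⟩ := hcon j (by omega) (by omega)
    have ha2 : a < 2 ^ a := Nat.lt_two_pow_self
    rw [Finset.mem_biUnion]
    refine ⟨a, Finset.mem_range.2 (by omega), ?_⟩
    rw [Finset.mem_biUnion]
    exact ⟨k, hk, Finset.mem_Icc.2 ⟨hk1, by omega⟩⟩
  have h2 : J.card ≤ ∑ a ∈ Finset.range T, (bad a).card * (2 ^ a + 1) := by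
    refine (Finset.card_le_card h1).trans (Finset.card_biUnion_le.trans ?_)
    refine Finset.sum_le_sum fun a _ => ?_
    refine Finset.card_biUnion_le.trans ?_
    rw [← smul_eq_mul, ← Finset.sum_const]
    refine Finset.sum_le_sum fun k _ => ?_
    rw [Nat.card_Icc]
    have h0 : 0 < 2 ^ a := by positivity
    omega
  have h3 : (J.card : ℝ) ≤ T / 4 := by
    calc (J.card : ℝ) ≤ ∑ a ∈ Finset.range T, ((bad a).card : ℝ) * (2 ^ a + 1) := by
          exact_mod_cast h2
      _ ≤ ∑ a ∈ Finset.range T, (T : ℝ) / 8 * (1 / 2) ^ a := by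
          refine Finset.sum_le_sum fun a _ => ?_
          have h4 : ((bad a).card : ℝ) * (16 * 4 ^ a) ≤ T := by exact_mod_cast hbad a
          have h5 : (1 : ℝ) ≤ 2 ^ a := one_le_pow₀ (by norm_num)
          have h6 : (4 : ℝ) ^ a = 2 ^ a * 2 ^ a := by
            rw [← mul_pow]
            norm_num
          have h7 : (0 : ℝ) ≤ (bad a).card := Nat.cast_nonneg _
          rw [one_div, inv_pow, ← div_eq_mul_inv, le_div_iff₀ (by positivity)]
          rw [h6] at h4
          have h8 : ((bad a).card : ℝ) * (2 ^ a + 1) * 2 ^ a ≤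
              ((bad a).card : ℝ) * (2 * 2 ^ a) * 2 ^ a := by
            gcongr
            linarith
          linarith
      _ = (T : ℝ) / 8 * ∑ a ∈ Finset.range T, (1 / 2 : ℝ) ^ a := by rw [Finset.mul_sum]
      _ ≤ (T : ℝ) / 8 * 2 := by
          gcongr
          exact sum_geometric_two_le T
      _ = T / 4 := by ring
  have h4 : J.card = T - 2 + 1 - (T - T / 2) := by rw [hJ, Nat.card_Icc]
  have h5 : T ≤ 2 * J.card + 3 := by omega
  have h6 : (T : ℝ) ≤ 2 * J.card + 3 := by exact_mod_cast h5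
  have h7 : (32 : ℝ) ≤ T := by exact_mod_cast hT
  linarith

end

/-- SpecWindow -/
theorem specWindow (h : SpecRare) : SpecWindow := by
  intro ι _ e r T L M hM hL hι hT
  obtain ⟨H, hH⟩ := exists_minimal e r
  set K : ℕ → ℕ := fun a => 2 * r * (M * 4 ^ a) ^ r with hK
  set bad : ℕ → Finset ℕ := fun a => (Finset.range T).filter fun k => ¬ Small e r k (K a)
    with hbad
  have hbadc : ∀ a, (bad a).card * (16 * 4 ^ a) ≤ T := by
    intro a
    have h1 : M * 4 ^ a * (bad a).card ≤ 4 * L * Fintype.card ι := by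
      have h0 := h ι e r T L (M * 4 ^ a) (K a) (by positivity) hL le_rfl
      simp only [hbad, Small]
      exact h0
    have h2 : M * ((bad a).card * (16 * 4 ^ a)) ≤ M * T := by
      calc M * ((bad a).card * (16 * 4 ^ a)) = 16 * (M * 4 ^ a * (bad a).card) := by ring
        _ ≤ 16 * (4 * L * Fintype.card ι) := Nat.mul_le_mul_left _ h1
        _ = 64 * L * Fintype.card ι := by ring
        _ ≤ M * T := hι
    exact Nat.le_of_mul_le_mul_left h2 hM
  obtain ⟨j, hj1, hj2, hj⟩ := exists_good T hT bad hbadc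
  have hKm : Monotone K := by
    intro a b hab
    simp only [hK]
    gcongr
    norm_num
  refine ⟨j, fun a => ((Finset.Icc (j - 2 ^ a) j).filter fun i => Small e r i (K a)).biUnion H,
    hj1, hj2, ?_, ?_, ?_⟩
  · intro a b hab
    refine Finset.biUnion_subset_biUnion_of_subset_left _ ?_
    intro i hi
    rw [Finset.mem_filter, Finset.mem_Icc] at hi ⊢
    have h1 : 2 ^ a ≤ 2 ^ b := Nat.pow_le_pow_right (by norm_num) hab
    exact ⟨⟨by omega, hi.1.2⟩, hi.2.mono (hKm hab)⟩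
  · intro a
    refine Finset.card_biUnion_le.trans ?_
    calc ∑ i ∈ (Finset.Icc (j - 2 ^ a) j).filter (fun i => Small e r i (K a)), (H i).card
        ≤ ∑ _i ∈ (Finset.Icc (j - 2 ^ a) j).filter (fun i => Small e r i (K a)), K a :=
          Finset.sum_le_sum fun i hi => (hH i (K a) (Finset.mem_filter.1 hi).2).1
      _ = ((Finset.Icc (j - 2 ^ a) j).filter (fun i => Small e r i (K a))).card * K a := by
          rw [Finset.sum_const, smul_eq_mul]
      _ ≤ (2 ^ a + 3) * K a := by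
          refine Nat.mul_le_mul_right _ ?_
          refine (Finset.card_filter_le _ _).trans ?_
          rw [Nat.card_Icc]
          have h0 : 0 < 2 ^ a := by positivity
          omega
  · intro a v ha hv hY hlt
    by_contra hcon
    push Not at hcon
    have h1 : (2 : ℝ) ^ (j - 2 ^ a) ≤ |sg e v| := by
      have h2 : (2 : ℝ) ^ j = 2 ^ (j - 2 ^ a) * 2 ^ (2 ^ a) := by
        rw [← pow_add]
        congr 1
        omega
      rw [h2] at hcon
      exact le_of_mul_le_mul_right hcon (by positivity)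
    obtain ⟨i, hi1, hi2, hi⟩ := exists_lev h1 hlt
    have h3 : Small e r i (K a) := by
      by_contra h4
      refine hj a ha i ?_ (by omega) (by omega)
      rw [hbad, Finset.mem_filter, Finset.mem_range]
      exact ⟨by omega, h4⟩
    obtain ⟨y, hy1, hy2⟩ := (hH i (K a) h3).2 v hv hi
    refine hy2 (hY y ?_)
    rw [Finset.mem_biUnion]
    exact ⟨i, Finset.mem_filter.2 ⟨Finset.mem_Icc.2 ⟨hi1, by omega⟩, h3⟩, hy1⟩

end Pool.Agent.Lib.MP_b75bf2_nt.CAP
end
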